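import Mathlib
import Pool.Prelude.Def_H_ad6db7b3
import Pool.Agent.Results.MP_0f8741_co.SpanningTree

set_option autoImplicit false

/-!
Size Ramsey numbers of graphs with average degree at least of order `log log n`.

The host graph is coloured as follows: every host vertex of small degree picks one of `M` patterns,
where every pattern is used by few neighbours of every host vertex of large degree, and each pattern
assigns a random colour to every host vertex of large degree.  A potential argument which goes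
through the high degree vertices of `G` in decreasing order of degree, together with a union bound
over all prefixes of this order, shows that no monochromatic copy of `G` exists when many edges of
`G` join vertices of low degree to vertices of high degree.
-/

namespace Pool.Agent.SizeRamsey683.HighLow

open Pool.Agent.Results.MP_0f8741_co

open Finset

theorem half_exp (u : ℝ) : (1 + Real.exp u) ≤ 2 * Real.exp (u / 2 + u ^ 2 / 8) := by
  have h1 := Real.cosh_le_exp_half_sq (u / 2)
  have h2 : 1 + Real.exp u = 2 * (Real.exp (u / 2) * Real.cosh (u / 2)) := by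
    rw [Real.cosh_eq]
    have e1 : Real.exp (u / 2) * Real.exp (u / 2) = Real.exp u := by
      rw [← Real.exp_add]; ring_nf
    have e2 : Real.exp (u / 2) * Real.exp (-(u / 2)) = 1 := by
      rw [← Real.exp_add]; simp
    nlinarith [e1, e2]
  rw [h2, Real.exp_add]
  have h3 : (u / 2) ^ 2 / 2 = u ^ 2 / 8 := by ring
  rw [h3] at h1
  have h4 := Real.exp_pos (u / 2)
  nlinarith [mul_le_mul_of_nonneg_left h1 h4.le]

theorem tail {M : ℕ} (t : Fin M → ℝ) (P : Finset (Fin M)) (T s : ℝ) (hT : 0 < T) (hs : 0 < s)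
    (ht0 : ∀ i, 0 ≤ t i) (ht : ∀ i ∈ P, s * t i ≤ T) (hsum : ∑ i ∈ P, t i ≤ T) :
    ((univ.filter (fun x : Fin M → Bool =>
      (2 / 3) * T < ∑ i ∈ P.filter (fun i => x i = true), t i)).card : ℝ)
      ≤ Real.exp (-(s / 18)) * 2 ^ M := by
  classical
  set lam : ℝ := (2 / 3) * s / T with hlam
  have hlam0 : 0 < lam := by positivity
  -- pointwise bound
  have h1 : ((univ.filter (fun x : Fin M → Bool =>
      (2 / 3) * T < ∑ i ∈ P.filter (fun i => x i = true), t i)).card : ℝ) *
      Real.exp (lam * ((2 / 3) * T)) ≤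
      ∑ x : Fin M → Bool, ∏ i : Fin M,
        (if i ∈ P ∧ x i = true then Real.exp (lam * t i) else 1) := by
    rw [← nsmul_eq_mul, ← Finset.sum_const]
    refine le_trans (Finset.sum_le_sum ?_)
      (Finset.sum_le_sum_of_subset_of_nonneg (Finset.filter_subset _ _) ?_)
    · intro x hx
      rw [Finset.mem_filter] at hx
      have h2 : ∏ i : Fin M, (if i ∈ P ∧ x i = true then Real.exp (lam * t i) else 1)
          = Real.exp (lam * ∑ i ∈ P.filter (fun i => x i = true), t i) := by
        rw [Finset.mul_sum, Real.exp_sum, Finset.prod_filter, ← Finset.prod_filter_mul_prod_filter_not univ (fun i => i ∈ P)]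
        have h3 : ∏ i ∈ univ.filter (fun i => ¬ i ∈ P),
            (if i ∈ P ∧ x i = true then Real.exp (lam * t i) else 1) = 1 := by
          apply Finset.prod_eq_one
          intro i hi
          rw [Finset.mem_filter] at hi
          rw [if_neg]
          intro h; exact hi.2 h.1
        rw [h3, mul_one]
        have h4 : univ.filter (fun i => i ∈ P) = P := by ext i; simp
        rw [h4]
        apply Finset.prod_congr rfl
        intro i hi
        simp [hi]
      rw [h2]
      apply Real.exp_le_exp.2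
      apply mul_le_mul_of_nonneg_left hx.2.le hlam0.le
    · intro x _ _
      apply Finset.prod_nonneg
      intro i _
      split_ifs <;> positivity
  have h5 : ∑ x : Fin M → Bool, ∏ i : Fin M,
        (if i ∈ P ∧ x i = true then Real.exp (lam * t i) else 1) =
        ∏ i : Fin M, ∑ b : Bool, (if i ∈ P ∧ b = true then Real.exp (lam * t i) else 1) := by
    rw [Finset.prod_univ_sum, Fintype.piFinset_univ]
  have h6 : ∏ i : Fin M, ∑ b : Bool, (if i ∈ P ∧ b = true then Real.exp (lam * t i) else 1)
      ≤ 2 ^ M * Real.exp (s / 3 + s / 18) := by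
    have h7 : ∀ i : Fin M, ∑ b : Bool, (if i ∈ P ∧ b = true then Real.exp (lam * t i) else 1)
        ≤ 2 * Real.exp (if i ∈ P then lam * t i / 2 + lam * t i * (lam * (T / s)) / 8 else 0) := by
      intro i
      by_cases hi : i ∈ P
      · simp only [hi, true_and, if_true, Fintype.sum_bool, Bool.false_eq_true, if_false]
        have h8 := half_exp (lam * t i)
        have h9 : (lam * t i) ^ 2 ≤ lam * t i * (lam * (T / s)) := by
          rw [pow_two]
          apply mul_le_mul_of_nonneg_left
          · apply mul_le_mul_of_nonneg_left _ hlam0.le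
            rw [le_div_iff₀ hs]; have := ht i hi; linarith
          · exact mul_nonneg hlam0.le (ht0 i)
        have h10 : Real.exp (lam * t i / 2 + (lam * t i) ^ 2 / 8) ≤
            Real.exp (lam * t i / 2 + lam * t i * (lam * (T / s)) / 8) := by
          apply Real.exp_le_exp.2; linarith
        linarith
      · simp [hi]
    calc ∏ i : Fin M, ∑ b : Bool, (if i ∈ P ∧ b = true then Real.exp (lam * t i) else 1)
        ≤ ∏ i : Fin M, (2 * Real.exp (if i ∈ P then lam * t i / 2 +
            lam * t i * (lam * (T / s)) / 8 else 0)) := by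
          apply Finset.prod_le_prod
          · intro i _
            apply Finset.sum_nonneg
            intro b _
            split_ifs <;> positivity
          · intro i _; exact h7 i
      _ = 2 ^ M * Real.exp (∑ i : Fin M, (if i ∈ P then lam * t i / 2 +
            lam * t i * (lam * (T / s)) / 8 else 0)) := by
          rw [Finset.prod_mul_distrib, Real.exp_sum]
          simp
      _ ≤ 2 ^ M * Real.exp (s / 3 + s / 18) := by
          apply mul_le_mul_of_nonneg_left _ (by positivity)
          apply Real.exp_le_exp.2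
          rw [← Finset.sum_filter]
          have h4 : univ.filter (fun i => i ∈ P) = P := by ext i; simp
          rw [h4]
          have h11 : ∀ i ∈ P, lam * t i / 2 + lam * t i * (lam * (T / s)) / 8 =
              (lam / 2 + lam * (lam * (T / s)) / 8) * t i := by
            intro i _; ring
          rw [Finset.sum_congr rfl h11, ← Finset.mul_sum]
          have h12 : (lam / 2 + lam * (lam * (T / s)) / 8) * ∑ i ∈ P, t i ≤
              (lam / 2 + lam * (lam * (T / s)) / 8) * T := by
            apply mul_le_mul_of_nonneg_left hsum; positivity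
          refine le_trans h12 (le_of_eq ?_)
          rw [hlam]
          field_simp
          ring
  have h13 : Real.exp (lam * ((2 / 3) * T)) = Real.exp (4 * s / 9) := by
    congr 1
    rw [hlam]; field_simp; ring
  rw [h13] at h1
  have h14 := le_trans h1 (h5.le.trans h6)
  have h15 : Real.exp (-(s / 18)) * 2 ^ M = (2 ^ M * Real.exp (s / 3 + s / 18)) / Real.exp (4 * s / 9) := by
    rw [mul_div_assoc, ← Real.exp_sub, mul_comm]
    congr 2; ring
  rw [h15, le_div_iff₀ (Real.exp_pos _)]
  exact h14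

section process

variable {n M : ℕ} (G : SimpleGraph (Fin n)) (s : ℝ)

open Classical in
noncomputable def tw (μ : Fin n → Fin M → ℝ) (y : Fin n) (i : Fin M) : ℝ :=
  ∑ b ∈ univ.filter (fun b => G.Adj y b), μ b i

noncomputable def TT (μ : Fin n → Fin M → ℝ) (y : Fin n) : ℝ := ∑ i, tw G μ y i

open Classical in
noncomputable def Kp (μ : Fin n → Fin M → ℝ) (y : Fin n) : Finset (Fin M) :=
  univ.filter (fun i => s * tw G μ y i ≤ TT G μ y)

def Fl (μ : Fin n → Fin M → ℝ) (y : Fin n) (x : Fin M → Bool) : Prop :=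
  (2 / 3) * TT G μ y < ∑ i ∈ (Kp G s μ y).filter (fun i => x i = true), tw G μ y i

open Classical in
noncomputable def step (μ : Fin n → Fin M → ℝ) (y : Fin n) (x : Fin M → Bool) :
    Fin n → Fin M → ℝ := fun b i =>
  if G.Adj y b then (if ¬ Fl G s μ y x ∧ i ∈ Kp G s μ y ∧ x i = true then (3 / 2) * μ b i else 0)
  else μ b i

theorem step_nonneg (μ : Fin n → Fin M → ℝ) (hμ : ∀ b i, 0 ≤ μ b i) (y : Fin n)
    (x : Fin M → Bool) (b : Fin n) (i : Fin M) : 0 ≤ step G s μ y x b i := by
  unfold step
  split_ifs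
  · have := hμ b i; positivity
  · exact le_rfl
  · exact hμ b i

theorem tw_nonneg (μ : Fin n → Fin M → ℝ) (hμ : ∀ b i, 0 ≤ μ b i) (y : Fin n) (i : Fin M) :
    0 ≤ tw G μ y i := Finset.sum_nonneg (fun b _ => hμ b i)

theorem step_total (μ : Fin n → Fin M → ℝ) (hμ : ∀ b i, 0 ≤ μ b i) (y : Fin n)
    (x : Fin M → Bool) : ∑ b, ∑ i, step G s μ y x b i ≤ ∑ b, ∑ i, μ b i := by
  classical
  have hT0 : 0 ≤ TT G μ y := Finset.sum_nonneg (fun i _ => tw_nonneg G μ hμ y i)
  rw [← Finset.sum_filter_add_sum_filter_not univ (fun b => G.Adj y b),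
    ← Finset.sum_filter_add_sum_filter_not univ (fun b => G.Adj y b) (fun b => ∑ i, μ b i)]
  apply add_le_add
  · have h1 : ∑ b ∈ univ.filter (fun b => G.Adj y b), ∑ i, μ b i = TT G μ y := by
      rw [Finset.sum_comm]; rfl
    rw [h1]
    by_cases hF : Fl G s μ y x
    · have h2 : ∑ b ∈ univ.filter (fun b => G.Adj y b), ∑ i, step G s μ y x b i = 0 := by
        apply Finset.sum_eq_zero
        intro b hb
        apply Finset.sum_eq_zero
        intro i _
        rw [Finset.mem_filter] at hb
        simp [step, hb.2, hF]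
      rw [h2]; exact hT0
    · have h2 : ∑ b ∈ univ.filter (fun b => G.Adj y b), ∑ i, step G s μ y x b i =
          (3 / 2) * ∑ i ∈ (Kp G s μ y).filter (fun i => x i = true), tw G μ y i := by
        rw [Finset.sum_comm, Finset.mul_sum, ← Finset.sum_filter_add_sum_filter_not univ
          (fun i => i ∈ Kp G s μ y ∧ x i = true)]
        have h3 : ∑ i ∈ univ.filter (fun i => ¬ (i ∈ Kp G s μ y ∧ x i = true)),
            ∑ b ∈ univ.filter (fun b => G.Adj y b), step G s μ y x b i = 0 := by
          apply Finset.sum_eq_zero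
          intro i hi
          apply Finset.sum_eq_zero
          intro b hb
          rw [Finset.mem_filter] at hb hi
          have h4 : ¬ (¬ Fl G s μ y x ∧ i ∈ Kp G s μ y ∧ x i = true) := fun h => hi.2 h.2
          simp only [step, if_pos hb.2, if_neg h4]
        rw [h3, add_zero]
        have h5 : univ.filter (fun i => i ∈ Kp G s μ y ∧ x i = true) =
            (Kp G s μ y).filter (fun i => x i = true) := by
          ext i; simp
        rw [h5]
        apply Finset.sum_congr rfl
        intro i hi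
        rw [Finset.mem_filter] at hi
        unfold tw
        rw [Finset.mul_sum]
        apply Finset.sum_congr rfl
        intro b hb
        rw [Finset.mem_filter] at hb
        have h4 : (¬ Fl G s μ y x ∧ i ∈ Kp G s μ y ∧ x i = true) := ⟨hF, hi.1, hi.2⟩
        simp only [step, if_pos hb.2, if_pos h4]
      rw [h2]
      unfold Fl at hF
      rw [not_lt] at hF
      linarith
  · apply Finset.sum_le_sum
    intro b hb
    apply Finset.sum_le_sum
    intro i _
    rw [Finset.mem_filter] at hb
    simp [step, hb.2]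

theorem not_kp_card (hs : 0 < s) (μ : Fin n → Fin M → ℝ) (hμ : ∀ b i, 0 ≤ μ b i) (y : Fin n) :
    ((univ.filter (fun i => i ∉ Kp G s μ y)).card : ℝ) ≤ s := by
  classical
  have ht0 := tw_nonneg G μ hμ y
  have hT0 : 0 ≤ TT G μ y := Finset.sum_nonneg (fun i _ => ht0 i)
  rcases hT0.lt_or_eq with hT | hT
  · have h1 : ((univ.filter (fun i => i ∉ Kp G s μ y)).card : ℝ) * TT G μ y ≤ s * TT G μ y := by
      rw [← nsmul_eq_mul, ← Finset.sum_const]
      calc ∑ i ∈ univ.filter (fun i => i ∉ Kp G s μ y), TT G μ y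
          ≤ ∑ i ∈ univ.filter (fun i => i ∉ Kp G s μ y), s * tw G μ y i := by
            apply Finset.sum_le_sum
            intro i hi
            simp only [Kp, Finset.mem_filter, Finset.mem_univ, true_and, not_le] at hi
            exact hi.le
        _ ≤ ∑ i, s * tw G μ y i := by
            apply Finset.sum_le_sum_of_subset_of_nonneg (Finset.filter_subset _ _)
            intro i _ _
            exact mul_nonneg hs.le (ht0 i)
        _ = s * TT G μ y := by rw [← Finset.mul_sum]; rfl
    exact le_of_mul_le_mul_right h1 hT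
  · have h1 : univ.filter (fun i => i ∉ Kp G s μ y) = ∅ := by
      apply Finset.filter_eq_empty_iff.2
      intro i _
      rw [not_not]
      simp only [Kp, Finset.mem_filter, Finset.mem_univ, true_and]
      have h2 : tw G μ y i = 0 := by
        have := (Finset.sum_eq_zero_iff_of_nonneg (fun i _ => ht0 i)).1 hT.symm i (Finset.mem_univ i)
        exact this
      rw [h2, ← hT]; simp
    rw [h1]; simp [hs.le]

open Classical in
theorem fl_count (hs : 0 < s) (μ : Fin n → Fin M → ℝ) (hμ : ∀ b i, 0 ≤ μ b i) (y : Fin n) :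
    ((univ.filter (fun x : Fin M → Bool => Fl G s μ y x)).card : ℝ) ≤
      Real.exp (-(s / 18)) * 2 ^ M := by
  have ht0 := tw_nonneg G μ hμ y
  have hT0 : 0 ≤ TT G μ y := Finset.sum_nonneg (fun i _ => ht0 i)
  rcases hT0.lt_or_eq with hT | hT
  · have := tail (tw G μ y) (Kp G s μ y) (TT G μ y) s hT hs ht0 ?_ ?_
    · unfold Fl
      convert this using 3
    · intro i hi
      simp only [Kp, Finset.mem_filter, Finset.mem_univ, true_and] at hi
      exact hi
    · unfold TT
      apply Finset.sum_le_sum_of_subset_of_nonneg (Finset.subset_univ _)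
      intro i _ _; exact ht0 i
  · have h1 : univ.filter (fun x : Fin M → Bool => Fl G s μ y x) = ∅ := by
      apply Finset.filter_eq_empty_iff.2
      intro x _
      unfold Fl
      rw [not_lt, ← hT]
      simp only [mul_zero]
      apply le_of_eq
      apply Finset.sum_eq_zero
      intro i _
      exact (Finset.sum_eq_zero_iff_of_nonneg (fun i _ => ht0 i)).1 hT.symm i (Finset.mem_univ i)
    rw [h1]; simp; positivity

noncomputable def St (μ0 : Fin n → Fin M → ℝ) (y : ℕ → Fin n) (x : ℕ → Fin M → Bool) :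
    ℕ → (Fin n → Fin M → ℝ)
  | 0 => μ0
  | (j + 1) => step G s (St μ0 y x j) (y j) (x j)

def FlAt (μ0 : Fin n → Fin M → ℝ) (y : ℕ → Fin n) (x : ℕ → Fin M → Bool) (j : ℕ) : Prop :=
  Fl G s (St G s μ0 y x j) (y j) (x j)

theorem St_congr (μ0 : Fin n → Fin M → ℝ) (y : ℕ → Fin n) (x x' : ℕ → Fin M → Bool) (k : ℕ)
    (h : ∀ j < k, x j = x' j) : St G s μ0 y x k = St G s μ0 y x' k := by
  induction k with
  | zero => rfl
  | succ k ih =>
    simp only [St]
    rw [ih (fun j hj => h j (by omega)), h k (by omega)]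

theorem FlAt_congr (μ0 : Fin n → Fin M → ℝ) (y : ℕ → Fin n) (x x' : ℕ → Fin M → Bool) (k : ℕ)
    (h : ∀ j ≤ k, x j = x' j) : FlAt G s μ0 y x k ↔ FlAt G s μ0 y x' k := by
  unfold FlAt
  rw [St_congr G s μ0 y x x' k (fun j hj => h j hj.le), h k le_rfl]

theorem St_nonneg (μ0 : Fin n → Fin M → ℝ) (hμ : ∀ b i, 0 ≤ μ0 b i) (y : ℕ → Fin n)
    (x : ℕ → Fin M → Bool) (k : ℕ) : ∀ b i, 0 ≤ St G s μ0 y x k b i := by
  induction k with
  | zero => exact hμ
  | succ k ih => exact step_nonneg G s _ ih _ _

theorem St_total (μ0 : Fin n → Fin M → ℝ) (hμ : ∀ b i, 0 ≤ μ0 b i) (y : ℕ → Fin n)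
    (x : ℕ → Fin M → Bool) (k : ℕ) : ∑ b, ∑ i, St G s μ0 y x k b i ≤ ∑ b, ∑ i, μ0 b i := by
  induction k with
  | zero => exact le_rfl
  | succ k ih =>
    exact le_trans (step_total G s _ (St_nonneg G s μ0 hμ y x k) _ _) ih

open Classical in
theorem St_survive (μ0 : Fin n → Fin M → ℝ) (y : ℕ → Fin n)
    (x : ℕ → Fin M → Bool) (k : ℕ) (b : Fin n) (i : Fin M)
    (h : ∀ j < k, G.Adj (y j) b → ¬ FlAt G s μ0 y x j ∧ i ∈ Kp G s (St G s μ0 y x j) (y j) ∧
      x j i = true) :
    St G s μ0 y x k b i = (3 / 2) ^ ((range k).filter (fun j => G.Adj (y j) b)).card * μ0 b i := by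
  induction k with
  | zero => simp [St]
  | succ k ih =>
    have ih' := ih (fun j hj => h j (by omega))
    rw [Finset.range_add_one, Finset.filter_insert]
    by_cases hb : G.Adj (y k) b
    · rw [if_pos hb, Finset.card_insert_of_notMem (by simp), pow_succ]
      have h1 := h k (by omega) hb
      unfold FlAt at h1
      have h2 : St G s μ0 y x (k + 1) b i = (3 / 2) * St G s μ0 y x k b i := by
        show step G s (St G s μ0 y x k) (y k) (x k) b i = _
        unfold step
        rw [if_pos hb, if_pos h1]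
      rw [h2, ih']; ring
    · rw [if_neg hb, ← ih']
      show step G s (St G s μ0 y x k) (y k) (x k) b i = _
      unfold step
      rw [if_neg hb]

end process


theorem avg {W Cl : Type} [Fintype W] [Fintype Cl] [DecidableEq W] (w : W)
    (h : (W → Cl) → ℝ) :
    ∑ c : W → Cl, ∑ x : Cl, h (Function.update c w x) =
      (Fintype.card Cl : ℝ) * ∑ c : W → Cl, h c := by
  let e : (W → Cl) × Cl → (W → Cl) × Cl := fun p => (Function.update p.1 w p.2, p.1 w)
  have he : Function.Involutive e := by
    intro p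
    simp [e]
  have h1 : ∑ c : W → Cl, ∑ x : Cl, h (Function.update c w x) =
      ∑ p : (W → Cl) × Cl, h (Function.update p.1 w p.2) := by
    rw [Fintype.sum_prod_type]
  have h2 : ∑ p : (W → Cl) × Cl, h (Function.update p.1 w p.2) =
      ∑ p : (W → Cl) × Cl, h p.1 :=
    Equiv.sum_comp (he.toPerm e) (fun p => h p.1)
  rw [h1, h2, Fintype.sum_prod_type]
  simp [Finset.mul_sum]

open Classical in
theorem fail_count {n M N : ℕ} (G : SimpleGraph (Fin n)) (s : ℝ) (hs : 0 < s)
    (μ0 : Fin n → Fin M → ℝ) (hμ : ∀ b i, 0 ≤ μ0 b i) (y : ℕ → Fin n) (k : ℕ)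
    (f : ℕ → Fin N) (hf : ∀ i < k, ∀ j < k, f i = f j → i = j) (F : Finset ℕ)
    (hF : ∀ j ∈ F, j < k) :
    ((univ.filter (fun c : Fin N → Fin M → Bool =>
      ∀ j ∈ F, FlAt G s μ0 y (fun j => c (f j)) j)).card : ℝ) ≤
      Real.exp (-(s / 18)) ^ F.card * ((2:ℝ) ^ M) ^ N := by
  induction k generalizing F with
  | zero =>
    have hF0 : F = ∅ := by
      apply Finset.eq_empty_of_forall_notMem
      intro j hj
      exact absurd (hF j hj) (by omega)
    subst hF0
    simp
  | succ k ih =>
    have hf' : ∀ i < k, ∀ j < k, f i = f j → i = j := fun i hi j hj => hf i (by omega) j (by omega)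
    by_cases hk : k ∈ F
    · have hF' : ∀ j ∈ F.erase k, j < k := by
        intro j hj
        rw [Finset.mem_erase] at hj
        have := hF j hj.2
        omega
      have ih' := ih hf' (F.erase k) hF'
      have hcard : F.card = (F.erase k).card + 1 := by
        rw [Finset.card_erase_of_mem hk]
        have := Finset.card_pos.2 ⟨k, hk⟩
        omega
      rw [hcard, pow_succ]
      set p := Real.exp (-(s / 18)) with hp
      have hp0 : 0 < p := Real.exp_pos _
      have h2M : (0:ℝ) < 2 ^ M := by positivity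
      have hkey : ∀ c : Fin N → Fin M → Bool,
          ∑ x : Fin M → Bool, (if ∀ j ∈ F, FlAt G s μ0 y
            (fun j => (Function.update c (f k) x) (f j)) j then (1:ℝ) else 0) ≤
          (if ∀ j ∈ F.erase k, FlAt G s μ0 y (fun j => c (f j)) j then (1:ℝ) else 0) *
            (p * 2 ^ M) := by
        intro c
        have hne : ∀ i < k, ∀ x : Fin M → Bool, Function.update c (f k) x (f i) = c (f i) := by
          intro i hi x
          apply Function.update_of_ne
          intro h
          have := hf i (by omega) k (by omega) h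
          omega
        have hiff : ∀ x : Fin M → Bool,
            (∀ j ∈ F, FlAt G s μ0 y (fun j => (Function.update c (f k) x) (f j)) j) ↔
            ((∀ j ∈ F.erase k, FlAt G s μ0 y (fun j => c (f j)) j) ∧
              Fl G s (St G s μ0 y (fun j => c (f j)) k) (y k) x) := by
          intro x
          have hlast : FlAt G s μ0 y (fun j => (Function.update c (f k) x) (f j)) k ↔
              Fl G s (St G s μ0 y (fun j => c (f j)) k) (y k) x := by
            unfold FlAt
            rw [St_congr G s μ0 y (fun j => (Function.update c (f k) x) (f j))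
              (fun j => c (f j)) k (fun j hj => hne j hj x)]
            simp
          have hprev : ∀ j < k, (FlAt G s μ0 y (fun j => (Function.update c (f k) x) (f j)) j ↔
              FlAt G s μ0 y (fun j => c (f j)) j) := by
            intro j hj
            apply FlAt_congr
            intro i hi
            exact hne i (by omega) x
          constructor
          · intro h
            refine ⟨?_, hlast.1 (h k hk)⟩
            intro j hj
            exact (hprev j (hF' j hj)).1 (h j (Finset.mem_of_mem_erase hj))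
          · rintro ⟨h1, h2⟩ j hj
            by_cases hjk : j = k
            · rw [hjk]; exact hlast.2 h2
            · exact (hprev j (by have := hF j hj; omega)).2
                (h1 j (Finset.mem_erase.2 ⟨hjk, hj⟩))
        simp only [hiff]
        by_cases hA : ∀ j ∈ F.erase k, FlAt G s μ0 y (fun j => c (f j)) j
        · have h3 : ∑ x : Fin M → Bool, (if (∀ j ∈ F.erase k, FlAt G s μ0 y
              (fun j => c (f j)) j) ∧ Fl G s (St G s μ0 y (fun j => c (f j)) k) (y k) x
              then (1:ℝ) else 0) =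
              ((univ.filter (fun x : Fin M → Bool =>
                Fl G s (St G s μ0 y (fun j => c (f j)) k) (y k) x)).card : ℝ) := by
            rw [Finset.card_filter]
            push_cast
            apply Finset.sum_congr rfl
            intro x _
            by_cases hx : Fl G s (St G s μ0 y (fun j => c (f j)) k) (y k) x
            · rw [if_pos ⟨hA, hx⟩, if_pos hx]
            · rw [if_neg (fun h => hx h.2), if_neg hx]
          rw [h3, if_pos hA, one_mul]
          exact fl_count G s hs _ (St_nonneg G s μ0 hμ y _ k) (y k)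
        · have h3 : ∑ x : Fin M → Bool, (if (∀ j ∈ F.erase k, FlAt G s μ0 y
              (fun j => c (f j)) j) ∧ Fl G s (St G s μ0 y (fun j => c (f j)) k) (y k) x
              then (1:ℝ) else 0) = 0 := by
            apply Finset.sum_eq_zero
            intro x _
            rw [if_neg (fun h => hA h.1)]
          rw [h3, if_neg hA, zero_mul]
      have h4 := avg (f k) (fun c : Fin N → (Fin M → Bool) => (if ∀ j ∈ F, FlAt G s μ0 y
            (fun j => c (f j)) j then (1:ℝ) else 0))
      have h5 : ((univ.filter (fun c : Fin N → Fin M → Bool =>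
          ∀ j ∈ F, FlAt G s μ0 y (fun j => c (f j)) j)).card : ℝ) =
          ∑ c : Fin N → (Fin M → Bool), (if ∀ j ∈ F, FlAt G s μ0 y
            (fun j => c (f j)) j then (1:ℝ) else 0) := by
        rw [Finset.card_filter]; push_cast; rfl
      have h6 : ((univ.filter (fun c : Fin N → Fin M → Bool =>
          ∀ j ∈ F.erase k, FlAt G s μ0 y (fun j => c (f j)) j)).card : ℝ) =
          ∑ c : Fin N → (Fin M → Bool), (if ∀ j ∈ F.erase k, FlAt G s μ0 y
            (fun j => c (f j)) j then (1:ℝ) else 0) := by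
        rw [Finset.card_filter]; push_cast; rfl
      have hcl : (Fintype.card (Fin M → Bool) : ℝ) = 2 ^ M := by simp
      rw [hcl] at h4
      have h7 : (2:ℝ) ^ M * ((univ.filter (fun c : Fin N → Fin M → Bool =>
          ∀ j ∈ F, FlAt G s μ0 y (fun j => c (f j)) j)).card : ℝ) ≤
          2 ^ M * (p * ((univ.filter (fun c : Fin N → Fin M → Bool =>
          ∀ j ∈ F.erase k, FlAt G s μ0 y (fun j => c (f j)) j)).card : ℝ)) := by
        rw [h5, ← h4, h6]
        refine le_trans (Finset.sum_le_sum (fun c _ => hkey c)) (le_of_eq ?_)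
        rw [← Finset.sum_mul]; ring
      have h8 := le_of_mul_le_mul_left h7 h2M
      calc _ ≤ _ := h8
        _ ≤ p * (p ^ (F.erase k).card * ((2:ℝ) ^ M) ^ N) :=
          mul_le_mul_of_nonneg_left ih' hp0.le
        _ = _ := by ring
    · apply ih hf' F
      intro j hj
      have := hF j hj
      have h9 : j ≠ k := fun h => hk (h ▸ hj)
      omega

open Classical in
theorem fail_count' {n M N : ℕ} (G : SimpleGraph (Fin n)) (s : ℝ) (hs : 0 < s)
    (μ0 : Fin n → Fin M → ℝ) (hμ : ∀ b i, 0 ≤ μ0 b i) (y : ℕ → Fin n) (k : ℕ)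
    (f : ℕ → Fin N) (hf : ∀ i < k, ∀ j < k, f i = f j → i = j) (F : Finset ℕ)
    (hF : ∀ j ∈ F, j < k) (flip : Bool) :
    ((univ.filter (fun c : Fin N → Fin M → Bool =>
      ∀ j ∈ F, FlAt G s μ0 y (fun j i => xor flip (c (f j) i)) j)).card : ℝ) ≤
      Real.exp (-(s / 18)) ^ F.card * ((2:ℝ) ^ M) ^ N := by
  refine le_trans (le_of_eq ?_) (fail_count G s hs μ0 hμ y k f hf F hF)
  congr 1
  apply Finset.card_nbij' (fun c w i => xor flip (c w i)) (fun c w i => xor flip (c w i))
  · intro c hc
    simp only [Finset.coe_filter, Finset.mem_univ, true_and, Set.mem_ofPred_eq] at hc ⊢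
    exact hc
  · intro c hc
    simp only [Finset.coe_filter, Finset.mem_univ, true_and, Set.mem_ofPred_eq] at hc ⊢
    have h : (fun (j : ℕ) (i : Fin M) => xor flip (xor flip (c (f j) i))) = fun j => c (f j) := by
      funext j i
      cases flip <;> simp
    rw [h]; exact hc
  · intro c _
    funext w i
    cases flip <;> simp
  · intro c _
    funext w i
    cases flip <;> simp

theorem geo_sum (a : ℕ) : ∑ k ∈ range a, (1 / 8 : ℝ) ^ (k + 1) ≤ 1 / 7 := by
  have : ∀ a : ℕ, ∑ k ∈ range a, (1 / 8 : ℝ) ^ (k + 1) = (1 - (1 / 8) ^ a) / 7 := by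
    intro a
    induction a with
    | zero => simp
    | succ a ih => rw [Finset.sum_range_succ, ih, pow_succ]; ring
  rw [this]
  have : (0:ℝ) ≤ (1 / 8) ^ a := by positivity
  linarith

open Classical in
theorem exists_good {n M N : ℕ} (G : SimpleGraph (Fin n)) (s : ℝ) (hs : 0 < s)
    (μ0 : Fin n → Fin M → ℝ) (hμ : ∀ b i, 0 ≤ μ0 b i) (y : ℕ → Fin n) (a : ℕ)
    (High : Finset (Fin N)) (w0 : Fin N) (z : ℕ) (q : ℝ) (hq0 : 0 < q)
    (hpq : Real.exp (-(s / 18)) = q ^ z) (hq1 : q ≤ 1)
    (hq : 16 * (High.card : ℝ) * q ≤ 1) :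
    ∃ c : Fin N → Fin M → Bool, ∀ flip : Bool, ∀ k ≤ a, ∀ f : ℕ → Fin N,
      (∀ j < k, f j ∈ High) → (∀ i < k, ∀ j < k, f i = f j → i = j) →
      z * ((range k).filter (fun j =>
        FlAt G s μ0 y (fun j i => xor flip (c (f j) i)) j)).card ≤ k := by
  by_contra hcon
  push Not at hcon
  let ext : (k : ℕ) → (Fin k → Fin N) → ℕ → Fin N :=
    fun k g j => if h : j < k then g ⟨j, h⟩ else w0
  let Bad : Bool → (k : ℕ) → (Fin k → Fin N) → Finset ℕ → Finset (Fin N → Fin M → Bool) :=
    fun flip k g F => univ.filter (fun c : Fin N → Fin M → Bool =>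
      ∀ j ∈ F, FlAt G s μ0 y (fun j i => xor flip (c (ext k g j) i)) j)
  let Gs : (k : ℕ) → Finset (Fin k → Fin N) := fun k =>
    (Fintype.piFinset (fun _ : Fin k => High)).filter (fun g => Function.Injective g)
  let Fs : (k : ℕ) → Finset (Finset ℕ) := fun k =>
    (range k).powerset.filter (fun F => k < z * F.card)
  have hcover : (univ : Finset (Fin N → Fin M → Bool)) ⊆
      (univ : Finset Bool).biUnion (fun flip => (range a).biUnion (fun k =>
        (Gs (k + 1)).biUnion (fun g => (Fs (k + 1)).biUnion (fun F => Bad flip (k + 1) g F)))) := by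
    intro c _
    obtain ⟨flip, k, hka, f, hfH, hfi, hlt⟩ := hcon c
    have hk0 : k ≠ 0 := by
      rintro rfl
      simp at hlt
    obtain ⟨k', rfl⟩ := Nat.exists_eq_succ_of_ne_zero hk0
    simp only [Finset.mem_biUnion]
    refine ⟨flip, Finset.mem_univ _, k', Finset.mem_range.2 (by omega),
      (fun j : Fin (k' + 1) => f j), ?_, ((range (k' + 1)).filter (fun j =>
        FlAt G s μ0 y (fun j i => xor flip (c (f j) i)) j)), ?_, ?_⟩
    · simp only [Gs, Finset.mem_filter, Fintype.mem_piFinset]
      refine ⟨fun j => hfH j j.2, ?_⟩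
      intro i j hij
      exact Fin.ext (hfi i i.2 j j.2 hij)
    · simp only [Fs, Finset.mem_filter, Finset.mem_powerset]
      exact ⟨Finset.filter_subset _ _, hlt⟩
    · simp only [Bad, Finset.mem_filter, Finset.mem_univ, true_and]
      rintro j ⟨hj1, hj2⟩
      rw [Finset.mem_range] at hj1
      refine (FlAt_congr G s μ0 y _ _ j ?_).1 hj2
      intro i hi
      have : i < k' + 1 := by omega
      simp only [ext, dif_pos this]
  have hp1 : ∀ flip k g F, g ∈ Gs k → F ∈ Fs k →
      ((Bad flip k g F).card : ℝ) ≤ q ^ k * ((2:ℝ) ^ M) ^ N := by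
    intro flip k g F hg hF
    simp only [Gs, Finset.mem_filter, Fintype.mem_piFinset] at hg
    simp only [Fs, Finset.mem_filter, Finset.mem_powerset] at hF
    have h1 := fail_count' G s hs μ0 hμ y k (ext k g) ?_ F ?_ flip
    · refine le_trans h1 ?_
      apply mul_le_mul_of_nonneg_right _ (by positivity)
      rw [hpq, ← pow_mul]
      exact pow_le_pow_of_le_one hq0.le hq1 hF.2.le
    · intro i hi j hj hij
      simp only [ext, dif_pos hi, dif_pos hj] at hij
      have := hg.2 hij
      simpa using this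
    · intro j hj
      exact Finset.mem_range.1 (hF.1 hj)
  have hX : (0:ℝ) < ((2:ℝ) ^ M) ^ N := by positivity
  have hGs : ∀ k, ((Gs k).card : ℝ) ≤ (High.card : ℝ) ^ k := by
    intro k
    have : (Gs k).card ≤ High.card ^ k := by
      refine le_trans (Finset.card_filter_le _ _) ?_
      rw [Fintype.card_piFinset]
      simp
    exact_mod_cast this
  have hFs : ∀ k, ((Fs k).card : ℝ) ≤ 2 ^ k := by
    intro k
    have : (Fs k).card ≤ 2 ^ k := by
      refine le_trans (Finset.card_filter_le _ _) ?_
      rw [Finset.card_powerset, Finset.card_range]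
    exact_mod_cast this
  have hsum : ((univ : Finset (Fin N → Fin M → Bool)).card : ℝ) ≤
      ∑ flip : Bool, ∑ k ∈ range a, ∑ g ∈ Gs (k + 1), ∑ F ∈ Fs (k + 1),
        ((Bad flip (k + 1) g F).card : ℝ) := by
    have h1 := Finset.card_le_card hcover
    have h2 : ((univ : Finset (Fin N → Fin M → Bool)).card) ≤
      ∑ flip : Bool, ∑ k ∈ range a, ∑ g ∈ Gs (k + 1), ∑ F ∈ Fs (k + 1),
        ((Bad flip (k + 1) g F).card) := by
      refine le_trans h1 (le_trans Finset.card_biUnion_le ?_)
      apply Finset.sum_le_sum; intro flip _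
      refine le_trans Finset.card_biUnion_le ?_
      apply Finset.sum_le_sum; intro k _
      refine le_trans Finset.card_biUnion_le ?_
      apply Finset.sum_le_sum; intro g _
      exact Finset.card_biUnion_le
    exact_mod_cast h2
  have hbound : ∑ flip : Bool, ∑ k ∈ range a, ∑ g ∈ Gs (k + 1), ∑ F ∈ Fs (k + 1),
        ((Bad flip (k + 1) g F).card : ℝ) ≤
      ∑ flip : Bool, ∑ k ∈ range a, (1 / 8 : ℝ) ^ (k + 1) * ((2:ℝ) ^ M) ^ N := by
    apply Finset.sum_le_sum; intro flip _
    apply Finset.sum_le_sum; intro k _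
    have h1 : ∑ g ∈ Gs (k + 1), ∑ F ∈ Fs (k + 1), ((Bad flip (k + 1) g F).card : ℝ) ≤
        ∑ g ∈ Gs (k + 1), ∑ F ∈ Fs (k + 1), q ^ (k + 1) * ((2:ℝ) ^ M) ^ N := by
      apply Finset.sum_le_sum; intro g hg
      apply Finset.sum_le_sum; intro F hF
      exact hp1 flip (k + 1) g F hg hF
    refine le_trans h1 ?_
    rw [Finset.sum_const, Finset.sum_const, nsmul_eq_mul, nsmul_eq_mul]
    have h2 := hGs (k + 1)
    have h3 := hFs (k + 1)
    have h4 : ((Gs (k + 1)).card : ℝ) * (((Fs (k + 1)).card : ℝ) * (q ^ (k + 1) * ((2:ℝ) ^ M) ^ N)) ≤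
        (High.card : ℝ) ^ (k + 1) * (2 ^ (k + 1) * (q ^ (k + 1) * ((2:ℝ) ^ M) ^ N)) := by
      gcongr
    refine le_trans h4 ?_
    have h5 : (High.card : ℝ) ^ (k + 1) * (2 ^ (k + 1) * (q ^ (k + 1) * ((2:ℝ) ^ M) ^ N)) =
        (2 * High.card * q) ^ (k + 1) * ((2:ℝ) ^ M) ^ N := by
      rw [mul_pow, mul_pow]; ring
    rw [h5]
    apply mul_le_mul_of_nonneg_right _ hX.le
    apply pow_le_pow_left₀ (by positivity)
    linarith
  have hfin : ∑ flip : Bool, ∑ k ∈ range a, (1 / 8 : ℝ) ^ (k + 1) * ((2:ℝ) ^ M) ^ N ≤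
      2 * (1 / 7) * ((2:ℝ) ^ M) ^ N := by
    rw [Finset.sum_const, ← Finset.sum_mul, nsmul_eq_mul]
    have := geo_sum a
    have h2 : ((univ : Finset Bool).card : ℝ) = 2 := by simp
    rw [h2]
    nlinarith
  have hcardX : ((univ : Finset (Fin N → Fin M → Bool)).card : ℝ) = ((2:ℝ) ^ M) ^ N := by
    rw [Finset.card_univ]; simp
  rw [hcardX] at hsum
  have := le_trans hsum (le_trans hbound hfin)
  nlinarith


open Classical in
theorem exists_loads {N M : ℕ} (F : SimpleGraph (Fin N)) (High : Finset (Fin N)) (δ : ℝ)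
    (hM : 0 < M) (hδ : ∀ v ∈ High, δ ≤ (F.degree v : ℝ))
    (hsmall : (High.card : ℝ) * M < (2:ℝ) ^ (2 * δ / M)) :
    ∃ ι : Fin N → Fin M, ∀ v ∈ High, ∀ i,
      (((F.neighborFinset v).filter (fun u => ι u = i)).card : ℝ) * M ≤ 4 * F.degree v := by
  by_contra hcon
  push Not at hcon
  have hM' : (0:ℝ) < M := by exact_mod_cast hM
  let Bad : Fin N → Fin M → Finset (Fin N → Fin M) := fun v i => univ.filter (fun ι =>
    4 * (F.degree v : ℝ) < (((F.neighborFinset v).filter (fun u => ι u = i)).card : ℝ) * M)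
  have hcover : (univ : Finset (Fin N → Fin M)) ⊆
      High.biUnion (fun v => (univ : Finset (Fin M)).biUnion (fun i => Bad v i)) := by
    intro ι _
    obtain ⟨v, hv, i, hi⟩ := hcon ι
    simp only [Finset.mem_biUnion]
    refine ⟨v, hv, i, Finset.mem_univ _, ?_⟩
    simp only [Bad, Finset.mem_filter, Finset.mem_univ, true_and]
    exact hi
  have hbad : ∀ v ∈ High, ∀ i, ((Bad v i).card : ℝ) * (2:ℝ) ^ (2 * δ / M) ≤ (M:ℝ) ^ N := by
    intro v hv i
    have h1 : ((Bad v i).card : ℝ) * (2:ℝ) ^ (4 * (F.degree v : ℝ) / M) ≤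
        ∑ ι : Fin N → Fin M, ∏ u : Fin N, (if F.Adj v u ∧ ι u = i then (2:ℝ) else 1) := by
      rw [← nsmul_eq_mul, ← Finset.sum_const]
      refine le_trans (Finset.sum_le_sum ?_)
        (Finset.sum_le_sum_of_subset_of_nonneg (Finset.subset_univ _) ?_)
      · intro ι hι
        simp only [Bad, Finset.mem_filter, Finset.mem_univ, true_and] at hι
        have h2 : ∏ u : Fin N, (if F.Adj v u ∧ ι u = i then (2:ℝ) else 1) =
            (2:ℝ) ^ (((F.neighborFinset v).filter (fun u => ι u = i)).card) := by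
          rw [← Finset.prod_filter, Finset.prod_const]
          congr 2
          ext u
          simp
        rw [h2, ← Real.rpow_natCast]
        apply Real.rpow_le_rpow_of_exponent_le (by norm_num)
        rw [div_le_iff₀ hM']
        exact hι.le
      · intro ι _ _
        apply Finset.prod_nonneg
        intro u _
        split_ifs <;> norm_num
    have h3 : ∑ ι : Fin N → Fin M, ∏ u : Fin N, (if F.Adj v u ∧ ι u = i then (2:ℝ) else 1) =
        ∏ u : Fin N, ∑ j : Fin M, (if F.Adj v u ∧ j = i then (2:ℝ) else 1) := by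
      rw [Finset.prod_univ_sum, Fintype.piFinset_univ]
    have h4 : ∏ u : Fin N, ∑ j : Fin M, (if F.Adj v u ∧ j = i then (2:ℝ) else 1) ≤
        (M:ℝ) ^ N * (2:ℝ) ^ (2 * (F.degree v : ℝ) / M) := by
      have h5 : ∀ u : Fin N, ∑ j : Fin M, (if F.Adj v u ∧ j = i then (2:ℝ) else 1) ≤
          M * (if F.Adj v u then Real.exp (1 / M) else 1) := by
        intro u
        by_cases hu : F.Adj v u
        · simp only [hu, true_and, if_true]
          have h6 : ∑ j : Fin M, (if j = i then (2:ℝ) else 1) = M + 1 := by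
            have : ∀ j : Fin M, (if j = i then (2:ℝ) else 1) = 1 + (if j = i then 1 else 0) := by
              intro j; split_ifs <;> norm_num
            simp only [this]
            rw [Finset.sum_add_distrib]
            simp
          rw [h6]
          have h7 := Real.add_one_le_exp (1 / (M:ℝ))
          calc (M:ℝ) + 1 = M * (1 / M + 1) := by field_simp; ring
            _ ≤ M * Real.exp (1 / M) := mul_le_mul_of_nonneg_left h7 hM'.le
        · simp [hu]
      calc ∏ u : Fin N, ∑ j : Fin M, (if F.Adj v u ∧ j = i then (2:ℝ) else 1)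
          ≤ ∏ u : Fin N, (M * (if F.Adj v u then Real.exp (1 / M) else 1)) := by
            apply Finset.prod_le_prod
            · intro u _
              apply Finset.sum_nonneg
              intro j _
              split_ifs <;> norm_num
            · intro u _; exact h5 u
        _ = (M:ℝ) ^ N * Real.exp (1 / M) ^ (F.degree v) := by
            rw [Finset.prod_mul_distrib, ← Finset.prod_filter, Finset.prod_const, Finset.prod_const]
            congr 2
            · simp
            · rw [← SimpleGraph.card_neighborFinset_eq_degree]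
              congr 1
              ext u; simp
        _ ≤ (M:ℝ) ^ N * (2:ℝ) ^ (2 * (F.degree v : ℝ) / M) := by
            apply mul_le_mul_of_nonneg_left _ (by positivity)
            rw [← Real.exp_nat_mul, Real.rpow_def_of_pos (by norm_num)]
            apply Real.exp_le_exp.2
            have hl : (1:ℝ) / 2 ≤ Real.log 2 := by
              have := Real.log_two_gt_d9; linarith
            have hd : (0:ℝ) ≤ (F.degree v : ℝ) / M := by positivity
            calc (F.degree v : ℝ) * (1 / M) = (F.degree v : ℝ) / M := by ring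
              _ ≤ (2 * Real.log 2) * ((F.degree v : ℝ) / M) := by nlinarith
              _ = Real.log 2 * (2 * (F.degree v : ℝ) / M) := by ring
    have h8 : (2:ℝ) ^ (4 * (F.degree v : ℝ) / M) =
        (2:ℝ) ^ (2 * (F.degree v : ℝ) / M) * (2:ℝ) ^ (2 * (F.degree v : ℝ) / M) := by
      rw [← Real.rpow_add (by norm_num)]; congr 1; ring
    have h9 := le_trans h1 (h3.le.trans h4)
    rw [h8, ← mul_assoc] at h9
    have hpos : (0:ℝ) < (2:ℝ) ^ (2 * (F.degree v : ℝ) / M) := by positivity
    have h10 := le_of_mul_le_mul_right h9 hpos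
    refine le_trans ?_ h10
    apply mul_le_mul_of_nonneg_left _ (by positivity)
    apply Real.rpow_le_rpow_of_exponent_le (by norm_num)
    have := hδ v hv
    gcongr
  have h1 := Finset.card_le_card hcover
  have h2 : ((univ : Finset (Fin N → Fin M)).card) ≤
      ∑ v ∈ High, ∑ i : Fin M, (Bad v i).card := by
    refine le_trans h1 (le_trans Finset.card_biUnion_le ?_)
    apply Finset.sum_le_sum; intro v _
    exact Finset.card_biUnion_le
  have h3 : (M:ℝ) ^ N ≤ ∑ v ∈ High, ∑ i : Fin M, ((Bad v i).card : ℝ) := by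
    have : (((univ : Finset (Fin N → Fin M)).card : ℕ) : ℝ) = (M:ℝ) ^ N := by
      rw [Finset.card_univ]; simp
    rw [← this]; exact_mod_cast h2
  have h4 : (∑ v ∈ High, ∑ i : Fin M, ((Bad v i).card : ℝ)) * (2:ℝ) ^ (2 * δ / M) ≤
      (High.card : ℝ) * M * (M:ℝ) ^ N := by
    rw [Finset.sum_mul]
    calc ∑ v ∈ High, (∑ i : Fin M, ((Bad v i).card : ℝ)) * (2:ℝ) ^ (2 * δ / M)
        ≤ ∑ v ∈ High, (M : ℝ) * (M:ℝ) ^ N := by
          apply Finset.sum_le_sum; intro v hv
          rw [Finset.sum_mul]
          calc ∑ i : Fin M, ((Bad v i).card : ℝ) * (2:ℝ) ^ (2 * δ / M)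
              ≤ ∑ i : Fin M, (M:ℝ) ^ N := Finset.sum_le_sum (fun i _ => hbad v hv i)
            _ = (M : ℝ) * (M:ℝ) ^ N := by simp
      _ = (High.card : ℝ) * M * (M:ℝ) ^ N := by
          rw [Finset.sum_const, nsmul_eq_mul]; ring
  have hMN : (0:ℝ) < (M:ℝ) ^ N := by positivity
  have h5 : (M:ℝ) ^ N * (2:ℝ) ^ (2 * δ / M) ≤ (M:ℝ) ^ N * ((High.card : ℝ) * M) := by
    calc _ ≤ (∑ v ∈ High, ∑ i : Fin M, ((Bad v i).card : ℝ)) * (2:ℝ) ^ (2 * δ / M) :=
          mul_le_mul_of_nonneg_right h3 (by positivity)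
      _ ≤ _ := h4
      _ = _ := by ring
  have h6 := le_of_mul_le_mul_left h5 hMN
  linarith

open Classical in
theorem abel (z : ℕ) (Δ : ℕ → ℕ) (a : ℕ) (anti : ∀ i j, i ≤ j → j < a → Δ j ≤ Δ i)
    (Fp : ℕ → Prop) (h : ∀ k ≤ a, z * ((range k).filter Fp).card ≤ k) :
    z * ∑ j ∈ (range a).filter Fp, Δ j ≤ ∑ j ∈ range a, Δ j := by
  let w : ℕ → ℤ := fun j => 1 - (if Fp j then (z:ℤ) else 0)
  have hg : ∀ k, ∑ j ∈ range k, w j = (k:ℤ) - z * ((range k).filter Fp).card := by
    intro k
    simp only [w]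
    rw [Finset.sum_sub_distrib, ← Finset.sum_filter]
    simp [mul_comm]
  have hg0 : ∀ k ≤ a, 0 ≤ ∑ j ∈ range k, w j := by
    intro k hk
    rw [hg]
    have := h k hk
    have : ((z * ((range k).filter Fp).card : ℕ) : ℤ) ≤ k := by exact_mod_cast this
    push_cast at this
    linarith
  have key : ∀ k ≤ a, ∀ l : ℤ, (∀ j < k, l ≤ Δ j) → l * ∑ j ∈ range k, w j ≤
      ∑ j ∈ range k, (Δ j : ℤ) * w j := by
    intro k
    induction k with
    | zero => intro _ l _; simp
    | succ k ih =>
      intro hk l hl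
      rw [Finset.sum_range_succ _ k, Finset.sum_range_succ (fun j => (Δ j : ℤ) * w j)]
      have h1 := ih (by omega) (Δ k : ℤ) (fun j hj => by
        exact_mod_cast anti j k hj.le (by omega))
      have h2 := hg0 (k + 1) hk
      rw [Finset.sum_range_succ] at h2
      have h3 : l ≤ Δ k := hl k (by omega)
      calc l * (∑ j ∈ range k, w j + w k) ≤ (Δ k : ℤ) * (∑ j ∈ range k, w j + w k) :=
            mul_le_mul_of_nonneg_right h3 h2
        _ = (Δ k : ℤ) * ∑ j ∈ range k, w j + (Δ k : ℤ) * w k := by ring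
        _ ≤ _ := by linarith
  have h1 := key a le_rfl 0 (fun j _ => by positivity)
  rw [zero_mul] at h1
  have h2 : ∑ j ∈ range a, (Δ j : ℤ) * w j =
      ∑ j ∈ range a, (Δ j : ℤ) - z * ∑ j ∈ (range a).filter Fp, (Δ j : ℤ) := by
    rw [Finset.sum_filter, Finset.mul_sum, ← Finset.sum_sub_distrib]
    apply Finset.sum_congr rfl
    intro j _
    simp only [w]
    split_ifs <;> ring
  rw [h2] at h1
  have h3 : ((z * ∑ j ∈ (range a).filter Fp, Δ j : ℕ) : ℤ) ≤ ((∑ j ∈ range a, Δ j : ℕ) : ℤ) := by
    push_cast; linarith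
  exact_mod_cast h3

theorem exists_enum {n : ℕ} (y0 : Fin n) (A : Finset (Fin n)) (Δ : Fin n → ℕ) :
    ∃ y : ℕ → Fin n, (∀ j < A.card, y j ∈ A) ∧
      (∀ i < A.card, ∀ j < A.card, y i = y j → i = j) ∧
      (∀ v ∈ A, ∃ j < A.card, y j = v) ∧
      (∀ i j, i ≤ j → j < A.card → Δ (y j) ≤ Δ (y i)) := by
  classical
  induction A using Finset.induction_on_min_value Δ with
  | empty => exact ⟨fun _ => y0, by simp, by simp, by simp, by simp⟩
  | insert a s ha hmin ih =>
    obtain ⟨y, h1, h2, h3, h4⟩ := ih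
    have hc : (insert a s).card = s.card + 1 := Finset.card_insert_of_notMem ha
    refine ⟨fun j => if j < s.card then y j else a, ?_, ?_, ?_, ?_⟩
    · intro j _
      by_cases hj : j < s.card
      · simp only [hj, if_true]; exact Finset.mem_insert_of_mem (h1 j hj)
      · simp only [hj, if_false]; exact Finset.mem_insert_self _ _
    · intro i hi j hj hij
      rw [hc] at hi hj
      by_cases hi' : i < s.card <;> by_cases hj' : j < s.card
      · simp only [hi', hj', if_true] at hij; exact h2 i hi' j hj' hij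
      · simp only [hi', hj', if_true, if_false] at hij
        exact absurd (hij ▸ h1 i hi') ha
      · simp only [hi', hj', if_true, if_false] at hij
        exact absurd (hij.symm ▸ h1 j hj') ha
      · omega
    · intro v hv
      rw [Finset.mem_insert] at hv
      rcases hv with rfl | hv
      · exact ⟨s.card, by omega, by simp⟩
      · obtain ⟨j, hj, hjv⟩ := h3 v hv
        exact ⟨j, by omega, by simp [hj, hjv]⟩
    · intro i j hij hj
      rw [hc] at hj
      by_cases hj' : j < s.card
      · have hi' : i < s.card := by omega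
        simp only [hi', hj', if_true]
        exact h4 i j hij hj'
      · simp only [hj', if_false]
        by_cases hi' : i < s.card
        · simp only [hi', if_true]; exact hmin _ (h1 i hi')
        · simp only [hi', if_false]; exact le_rfl

open Classical in
theorem main_det {n M N : ℕ} (G : SimpleGraph (Fin n)) (F : SimpleGraph (Fin N)) (s : ℝ)
    (hs : 0 < s) (hM : 0 < M)
    (A B : Finset (Fin n)) (φ : Fin n → Fin N) (hφ : Function.Injective φ)
    (hφF : ∀ u v, G.Adj u v → F.Adj (φ u) (φ v))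
    (High : Finset (Fin N)) (ι : Fin N → Fin M)
    (hload : ∀ v ∈ High, ∀ i,
      (((F.neighborFinset v).filter (fun u => ι u = i)).card : ℝ) * M ≤ 4 * F.degree v)
    (c : Fin N → Fin M → Bool)
    (hcol : ∀ y b, G.Adj y b → φ b ∉ High → φ y ∈ High → c (φ y) (ι (φ b)) = true)
    (hAH : ∀ v ∈ A, φ v ∈ High)
    (μ0 : Fin n → Fin M → ℝ) (hμ0 : μ0 = fun b _ => if b ∈ B then 1 else 0)
    (y : ℕ → Fin n) (hy1 : ∀ j < A.card, y j ∈ A)
    (hy2 : ∀ i < A.card, ∀ j < A.card, y i = y j → i = j)
    (hy3 : ∀ v ∈ A, ∃ j < A.card, y j = v)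
    (hy4 : ∀ i j, i ≤ j → j < A.card → (B.filter (fun b => G.Adj (y j) b)).card ≤
      (B.filter (fun b => G.Adj (y i) b)).card)
    (z : ℕ) (hz : 0 < z)
    (hgood : ∀ k ≤ A.card, z * ((range k).filter (fun j =>
        FlAt G s μ0 y (fun j => c (φ (y j))) j)).card ≤ k)
    (D : ℝ) (hD0 : 0 < D) (hD : ∀ b ∈ B, D ≤ (3 / 2 : ℝ) ^ (A.filter (fun v => G.Adj v b)).card) :
    (B.card : ℝ) ≤ High.card + B.card * M / D + 2 * G.edgeFinset.card / z +
      8 * s * F.edgeFinset.card / M := by
  have hM' : (0:ℝ) < M := by exact_mod_cast hM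
  have hz' : (0:ℝ) < z := by exact_mod_cast hz
  set x : ℕ → Fin M → Bool := fun j => c (φ (y j)) with hx
  have hμn : ∀ b i, 0 ≤ μ0 b i := by
    intro b i; rw [hμ0]; simp only; split_ifs <;> norm_num
  set a := A.card with ha
  set S := B.filter (fun b => φ b ∉ High ∧ ∀ j < a, G.Adj (y j) b →
    ¬ FlAt G s μ0 y x j ∧ ι (φ b) ∈ Kp G s (St G s μ0 y x j) (y j)) with hS
  set B1 := B.filter (fun b => φ b ∈ High) with hB1
  set B2 := ((range a).filter (fun j => FlAt G s μ0 y x j)).biUnion
    (fun j => B.filter (fun b => G.Adj (y j) b)) with hB2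
  set B3 := (range a).biUnion (fun j => univ.filter (fun b : Fin n => G.Adj (y j) b ∧
    ι (φ b) ∉ Kp G s (St G s μ0 y x j) (y j))) with hB3
  have hcov : B ⊆ ((B1 ∪ S) ∪ B2) ∪ B3 := by
    intro b hb
    simp only [Finset.mem_union]
    by_cases h1 : φ b ∈ High
    · exact Or.inl (Or.inl (Or.inl (Finset.mem_filter.2 ⟨hb, h1⟩)))
    by_cases h2 : ∀ j < a, G.Adj (y j) b →
        ¬ FlAt G s μ0 y x j ∧ ι (φ b) ∈ Kp G s (St G s μ0 y x j) (y j)
    · exact Or.inl (Or.inl (Or.inr (Finset.mem_filter.2 ⟨hb, h1, h2⟩)))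
    push Not at h2
    obtain ⟨j, hj, hadj, h3⟩ := h2
    by_cases h4 : FlAt G s μ0 y x j
    · left; right
      rw [hB2, Finset.mem_biUnion]
      exact ⟨j, Finset.mem_filter.2 ⟨Finset.mem_range.2 hj, h4⟩, Finset.mem_filter.2 ⟨hb, hadj⟩⟩
    · right
      rw [hB3, Finset.mem_biUnion]
      exact ⟨j, Finset.mem_range.2 hj, Finset.mem_filter.2 ⟨Finset.mem_univ _, hadj, h3 h4⟩⟩
  have hcard : B.card ≤ B1.card + S.card + B2.card + B3.card := by
    refine le_trans (Finset.card_le_card hcov) ?_
    refine le_trans (Finset.card_union_le _ _) ?_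
    have h1 := Finset.card_union_le (B1 ∪ S) B2
    have h2 := Finset.card_union_le B1 S
    omega
  -- B1
  have hb1 : (B1.card : ℝ) ≤ High.card := by
    have : B1.card ≤ High.card := by
      apply Finset.card_le_card_of_injOn φ
      · intro b hb
        simp only [hB1, Finset.coe_filter, Set.mem_ofPred_eq] at hb
        exact hb.2
      · exact hφ.injOn
    exact_mod_cast this
  -- S
  have hs1 : D * (S.card : ℝ) ≤ B.card * M := by
    have h1 : ∀ b ∈ S, D ≤ ∑ i, St G s μ0 y x a b i := by
      intro b hb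
      rw [hS, Finset.mem_filter] at hb
      have h2 := St_survive G s μ0 y x a b (ι (φ b)) (by
        intro j hj hadj
        obtain ⟨h3, h4⟩ := hb.2.2 j hj hadj
        refine ⟨h3, h4, ?_⟩
        exact hcol (y j) b hadj hb.2.1 (hAH _ (hy1 j hj)))
      have h5 : μ0 b (ι (φ b)) = 1 := by rw [hμ0]; simp [hb.1]
      rw [h5, mul_one] at h2
      have h6 : ((range a).filter (fun j => G.Adj (y j) b)).card =
          (A.filter (fun v => G.Adj v b)).card := by
        apply Finset.card_bij (fun j _ => y j)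
        · intro j hj
          rw [Finset.mem_filter, Finset.mem_range] at hj
          exact Finset.mem_filter.2 ⟨hy1 j hj.1, hj.2⟩
        · intro i hi j hj hij
          rw [Finset.mem_filter, Finset.mem_range] at hi hj
          exact hy2 i hi.1 j hj.1 hij
        · intro v hv
          rw [Finset.mem_filter] at hv
          obtain ⟨j, hj, rfl⟩ := hy3 v hv.1
          exact ⟨j, Finset.mem_filter.2 ⟨Finset.mem_range.2 hj, hv.2⟩, rfl⟩
      rw [h6] at h2
      calc D ≤ _ := hD b hb.1
        _ = St G s μ0 y x a b (ι (φ b)) := h2.symm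
        _ ≤ _ := Finset.single_le_sum (f := fun i => St G s μ0 y x a b i)
            (fun i _ => St_nonneg G s μ0 hμn y x a b i) (Finset.mem_univ _)
    have h7 : ∑ b, ∑ i, μ0 b i = B.card * M := by
      rw [hμ0]
      simp [mul_comm]
    calc D * (S.card : ℝ) = ∑ b ∈ S, D := by rw [Finset.sum_const, nsmul_eq_mul]; ring
      _ ≤ ∑ b ∈ S, ∑ i, St G s μ0 y x a b i := Finset.sum_le_sum h1
      _ ≤ ∑ b, ∑ i, St G s μ0 y x a b i := by
          apply Finset.sum_le_sum_of_subset_of_nonneg (Finset.subset_univ _)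
          intro b _ _
          exact Finset.sum_nonneg (fun i _ => St_nonneg G s μ0 hμn y x a b i)
      _ ≤ ∑ b, ∑ i, μ0 b i := St_total G s μ0 hμn y x a
      _ = _ := h7
  have hs2 : (S.card : ℝ) ≤ B.card * M / D := by
    rw [le_div_iff₀ hD0]; linarith
  -- B2
  have hb2 : (B2.card : ℝ) ≤ 2 * G.edgeFinset.card / z := by
    have h1 : B2.card ≤ ∑ j ∈ (range a).filter (fun j => FlAt G s μ0 y x j),
        (B.filter (fun b => G.Adj (y j) b)).card := Finset.card_biUnion_le
    have h2 := abel z (fun j => (B.filter (fun b => G.Adj (y j) b)).card) a hy4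
      (fun j => FlAt G s μ0 y x j) hgood
    have h3 : ∑ j ∈ range a, (B.filter (fun b => G.Adj (y j) b)).card ≤
        2 * G.edgeFinset.card := by
      rw [← SimpleGraph.sum_degrees_eq_twice_card_edges]
      calc ∑ j ∈ range a, (B.filter (fun b => G.Adj (y j) b)).card
          ≤ ∑ j ∈ range a, G.degree (y j) := by
            apply Finset.sum_le_sum
            intro j _
            rw [← SimpleGraph.card_neighborFinset_eq_degree]
            apply Finset.card_le_card
            intro b hb
            rw [Finset.mem_filter] at hb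
            simpa using hb.2
        _ = ∑ v ∈ (range a).image y, G.degree v := by
            rw [Finset.sum_image]
            intro i hi j hj hij
            simp only [Finset.coe_range, Set.mem_Iio] at hi hj
            exact hy2 i hi j hj hij
        _ ≤ ∑ v, G.degree v := by
            apply Finset.sum_le_sum_of_subset (Finset.subset_univ _)
    rw [le_div_iff₀ hz']
    have h4 : z * B2.card ≤ 2 * G.edgeFinset.card :=
      le_trans (Nat.mul_le_mul_left z h1) (le_trans h2 h3)
    have h5 : ((z * B2.card : ℕ) : ℝ) ≤ ((2 * G.edgeFinset.card : ℕ) : ℝ) := by exact_mod_cast h4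
    push_cast at h5
    linarith
  -- B3
  have hb3 : (B3.card : ℝ) ≤ 8 * s * F.edgeFinset.card / M := by
    have h1 : (B3.card : ℝ) ≤ ∑ j ∈ range a, ((univ.filter (fun b : Fin n => G.Adj (y j) b ∧
        ι (φ b) ∉ Kp G s (St G s μ0 y x j) (y j))).card : ℝ) := by
      exact_mod_cast Finset.card_biUnion_le
    have h2 : ∀ j ∈ range a, ((univ.filter (fun b : Fin n => G.Adj (y j) b ∧
        ι (φ b) ∉ Kp G s (St G s μ0 y x j) (y j))).card : ℝ) ≤
        4 * s / M * F.degree (φ (y j)) := by
      intro j hj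
      rw [Finset.mem_range] at hj
      set K := univ.filter (fun i => i ∉ Kp G s (St G s μ0 y x j) (y j)) with hK
      have h3 : (univ.filter (fun b : Fin n => G.Adj (y j) b ∧
          ι (φ b) ∉ Kp G s (St G s μ0 y x j) (y j))).card ≤
          ∑ i ∈ K, ((F.neighborFinset (φ (y j))).filter (fun u => ι u = i)).card := by
        have h4 : (univ.filter (fun b : Fin n => G.Adj (y j) b ∧
          ι (φ b) ∉ Kp G s (St G s μ0 y x j) (y j))).card ≤
          (K.biUnion (fun i => (F.neighborFinset (φ (y j))).filter (fun u => ι u = i))).card := by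
          apply Finset.card_le_card_of_injOn φ
          · intro b hb
            simp only [Finset.coe_filter, Finset.mem_univ, true_and, Set.mem_ofPred_eq] at hb
            simp only [Finset.coe_biUnion, Set.mem_iUnion, Finset.mem_coe, Finset.mem_filter,
              SimpleGraph.mem_neighborFinset]
            refine ⟨ι (φ b), ?_, hφF _ _ hb.1, rfl⟩
            rw [hK, Finset.mem_filter]
            exact ⟨Finset.mem_univ _, hb.2⟩
          · exact hφ.injOn
        exact le_trans h4 Finset.card_biUnion_le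
      have h5 : ∀ i ∈ K, (((F.neighborFinset (φ (y j))).filter (fun u => ι u = i)).card : ℝ) ≤
          4 * F.degree (φ (y j)) / M := by
        intro i _
        rw [le_div_iff₀ hM']
        exact hload _ (hAH _ (hy1 j hj)) i
      have h6 : (K.card : ℝ) ≤ s := by
        have := not_kp_card G s hs (St G s μ0 y x j) (St_nonneg G s μ0 hμn y x j) (y j)
        convert this using 3
      calc ((univ.filter (fun b : Fin n => G.Adj (y j) b ∧
          ι (φ b) ∉ Kp G s (St G s μ0 y x j) (y j))).card : ℝ)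
          ≤ ∑ i ∈ K, (((F.neighborFinset (φ (y j))).filter (fun u => ι u = i)).card : ℝ) := by
            exact_mod_cast h3
        _ ≤ ∑ i ∈ K, 4 * (F.degree (φ (y j)) : ℝ) / M := Finset.sum_le_sum h5
        _ = K.card * (4 * (F.degree (φ (y j)) : ℝ) / M) := by
            rw [Finset.sum_const, nsmul_eq_mul]
        _ ≤ s * (4 * (F.degree (φ (y j)) : ℝ) / M) := by
            apply mul_le_mul_of_nonneg_right h6; positivity
        _ = _ := by ring
    have h7 : ∑ j ∈ range a, (F.degree (φ (y j)) : ℝ) ≤ 2 * F.edgeFinset.card := by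
      have h8 : ∑ j ∈ range a, F.degree (φ (y j)) ≤ 2 * F.edgeFinset.card := by
        rw [← SimpleGraph.sum_degrees_eq_twice_card_edges]
        calc ∑ j ∈ range a, F.degree (φ (y j))
            = ∑ v ∈ (range a).image (fun j => φ (y j)), F.degree v := by
              rw [Finset.sum_image]
              intro i hi j hj hij
              simp only [Finset.coe_range, Set.mem_Iio] at hi hj
              exact hy2 i hi j hj (hφ hij)
          _ ≤ ∑ v, F.degree v := by
              apply Finset.sum_le_sum_of_subset (Finset.subset_univ _)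
      exact_mod_cast h8
    calc (B3.card : ℝ) ≤ _ := h1
      _ ≤ ∑ j ∈ range a, 4 * s / M * (F.degree (φ (y j)) : ℝ) := Finset.sum_le_sum h2
      _ = 4 * s / M * ∑ j ∈ range a, (F.degree (φ (y j)) : ℝ) := by rw [Finset.mul_sum]
      _ ≤ 4 * s / M * (2 * F.edgeFinset.card) := by
          apply mul_le_mul_of_nonneg_left h7; positivity
      _ = _ := by ring
  have hcard' : (B.card : ℝ) ≤ B1.card + S.card + B2.card + B3.card := by exact_mod_cast hcard
  linarith


open Classical in
theorem degree_le_of_copy {n N : ℕ} (G : SimpleGraph (Fin n)) (F : SimpleGraph (Fin N))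
    (φ : Fin n → Fin N) (hφ : Function.Injective φ)
    (hφF : ∀ u v, G.Adj u v → F.Adj (φ u) (φ v)) (v : Fin n) :
    G.degree v ≤ F.degree (φ v) := by
  rw [← SimpleGraph.card_neighborFinset_eq_degree, ← SimpleGraph.card_neighborFinset_eq_degree]
  apply Finset.card_le_card_of_injOn φ
  · intro u hu
    simp only [Finset.mem_coe, SimpleGraph.mem_neighborFinset] at hu ⊢
    exact hφF _ _ hu
  · exact hφ.injOn

open Classical in
theorem high_card {N : ℕ} (F : SimpleGraph (Fin N)) (δ : ℝ) :
    ((univ.filter (fun v => δ ≤ (F.degree v : ℝ))).card : ℝ) * δ ≤ 2 * F.edgeFinset.card := by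
  have h1 : ∑ v, F.degree v = 2 * F.edgeFinset.card := SimpleGraph.sum_degrees_eq_twice_card_edges F
  have h2 : ∑ v, (F.degree v : ℝ) = 2 * F.edgeFinset.card := by exact_mod_cast h1
  rw [← h2, ← nsmul_eq_mul, ← Finset.sum_const]
  refine le_trans (Finset.sum_le_sum (g := fun v => (F.degree v : ℝ)) ?_) ?_
  · intro v hv
    exact (Finset.mem_filter.1 hv).2
  · apply Finset.sum_le_sum_of_subset_of_nonneg (Finset.subset_univ _)
    intro v _ _; positivity

open Classical in
theorem core (t δ : ℝ) (ht : 64 ≤ t) {n : ℕ} (G : SimpleGraph (Fin n)) (A B : Finset (Fin n))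
    (he : 0 < G.edgeFinset.card)
    (hδ : 2 ^ 27 * t ^ 5 ≤ δ) (hδe : (G.edgeFinset.card : ℝ) ≤ 2 ^ t * δ)
    (hA : ∀ v ∈ A, δ ≤ (G.degree v : ℝ))
    (hB : (G.edgeFinset.card : ℝ) ≤ 16 * t * B.card)
    (hBA : ∀ b ∈ B, 2 ^ 26 * t ^ 4 ≤ (3 / 2 : ℝ) ^ (A.filter (fun v => G.Adj v b)).card)
    {N : ℕ} (F : SimpleGraph (Fin N)) (w0 : Fin N)
    (hFm : (F.edgeFinset.card : ℝ) ≤ t * G.edgeFinset.card)
    (hR : ∀ R : SimpleGraph (Fin N), R ≤ F → G.IsContained R ∨ G.IsContained (F \ R)) : False := by
  have ht0 : 0 < t := by linarith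
  have ht1 : 1 ≤ t := by linarith
  have he' : (0:ℝ) < G.edgeFinset.card := by exact_mod_cast he
  have hδ0 : 0 < δ := lt_of_lt_of_le (by positivity) hδ
  set e : ℝ := (G.edgeFinset.card : ℝ) with hedef
  set m : ℝ := (F.edgeFinset.card : ℝ) with hmdef
  have hBpos : (0:ℝ) < B.card := by
    by_contra h
    have h1 : (B.card : ℝ) = 0 := le_antisymm (not_lt.1 h) (by positivity)
    rw [h1] at hB; linarith
  set High := univ.filter (fun v => δ ≤ (F.degree v : ℝ)) with hHigh
  have hHc := high_card F δ
  rw [← hHigh, ← hmdef] at hHc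
  have hm0 : 0 ≤ m := by positivity
  have hH1 : (High.card : ℝ) * δ ≤ 2 * t * e := by linarith
  -- High ≤ 2 t 2^t
  have h2t : (0:ℝ) < 2 ^ t := by positivity
  have hH2 : (High.card : ℝ) ≤ 2 * t * 2 ^ t := by
    have : (High.card : ℝ) * δ ≤ (2 * t * 2 ^ t) * δ := by nlinarith
    exact le_of_mul_le_mul_right this hδ0
  have hH3 : (High.card : ℝ) ≤ B.card / 8 := by
    have h1 : (High.card : ℝ) * δ ≤ 2 * t * (16 * t * B.card) := by nlinarith
    have h2 : 2 * t * (16 * t * B.card) ≤ (B.card / 8 : ℝ) * δ := by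
      have h3 : 256 * t ^ 2 ≤ δ := by
        have : 256 * t ^ 2 ≤ 2 ^ 27 * t ^ 5 := by
          have h4 : t ^ 2 ≤ t ^ 5 := pow_le_pow_right₀ ht1 (by norm_num)
          nlinarith [pow_pos ht0 5]
        linarith
      nlinarith
    exact le_of_mul_le_mul_right (le_trans h1 h2) hδ0
  -- parameters
  set z : ℕ := ⌈256 * t⌉₊ with hzdef
  have hz1 : 256 * t ≤ z := Nat.le_ceil _
  have hz2 : (z : ℝ) ≤ 257 * t := by
    have := (Nat.ceil_lt_add_one (show 0 ≤ 256 * t by positivity)).le
    rw [← hzdef] at this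
    linarith
  have hz0 : (0:ℝ) < z := by linarith
  have hz0' : 0 < z := by exact_mod_cast hz0
  set s : ℝ := 108 * z * t with hsdef
  have hs0 : 0 < s := by positivity
  set q : ℝ := Real.exp (-(6 * t)) with hqdef
  have hq0 : 0 < q := Real.exp_pos _
  have hq1 : q ≤ 1 := by rw [hqdef, Real.exp_le_one_iff]; linarith
  have hpq : Real.exp (-(s / 18)) = q ^ z := by
    rw [hqdef, ← Real.exp_nat_mul]; congr 1; rw [hsdef]; ring
  have hq : 16 * (High.card : ℝ) * q ≤ 1 := by
    have h1 : 16 * (High.card : ℝ) ≤ Real.exp (6 * t) := by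
      have h2 : t ≤ Real.exp t := by
        have := Real.add_one_le_exp t; linarith
      have h3 : (2:ℝ) ^ t ≤ Real.exp t := by
        rw [Real.rpow_def_of_pos (by norm_num)]
        apply Real.exp_le_exp.2
        have := Real.log_two_lt_d9
        nlinarith
      have h4 : (32:ℝ) ≤ Real.exp (4 * t) := by
        have := Real.add_one_le_exp (4 * t); linarith
      have h5 : Real.exp (6 * t) = Real.exp (4 * t) * (Real.exp t * Real.exp t) := by
        rw [← Real.exp_add, ← Real.exp_add]; congr 1; ring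
      rw [h5]
      calc 16 * (High.card : ℝ) ≤ 16 * (2 * t * 2 ^ t) := by linarith
        _ = 32 * (t * 2 ^ t) := by ring
        _ ≤ Real.exp (4 * t) * (Real.exp t * Real.exp t) := by
            apply mul_le_mul h4 _ (by positivity) (by positivity)
            exact mul_le_mul h2 h3 (by positivity) (by positivity)
    have h6 : Real.exp (6 * t) * q = 1 := by
      rw [hqdef, ← Real.exp_add]; simp
    calc 16 * (High.card : ℝ) * q ≤ Real.exp (6 * t) * q := by gcongr
      _ = 1 := h6
  set M : ℕ := ⌈1024 * s * t ^ 2⌉₊ with hMdef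
  have hM1 : 1024 * s * t ^ 2 ≤ M := Nat.le_ceil _
  have hM2 : (M : ℝ) ≤ 2 ^ 25 * t ^ 4 := by
    have h1 := (Nat.ceil_lt_add_one (show 0 ≤ 1024 * s * t ^ 2 by positivity)).le
    rw [← hMdef] at h1
    have h2 : 1024 * s * t ^ 2 ≤ 28422144 * t ^ 4 := by
      rw [hsdef]
      have : z * t ^ 3 ≤ 257 * t * t ^ 3 := by
        apply mul_le_mul_of_nonneg_right hz2; positivity
      nlinarith
    have h3 : (1:ℝ) ≤ t ^ 4 := one_le_pow₀ ht1
    norm_num
    linarith
  have hM0 : (0:ℝ) < M := lt_of_lt_of_le (by positivity) hM1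
  have hM0' : 0 < M := by exact_mod_cast hM0
  -- loads
  have hsmall : (High.card : ℝ) * M < (2:ℝ) ^ (2 * δ / M) := by
    have h1 : (High.card : ℝ) * M ≤ (2 * t * 2 ^ t) * (2 ^ 25 * t ^ 4) := by gcongr
    have h2 : (8:ℝ) * t ≤ 2 * δ / M := by
      rw [le_div_iff₀ hM0]
      calc 8 * t * M ≤ 8 * t * (2 ^ 25 * t ^ 4) := by gcongr
        _ = 2 * (2 ^ 27 * t ^ 5) := by ring
        _ ≤ 2 * δ := by linarith
    have h3 : (2:ℝ) ^ (8 * t) ≤ (2:ℝ) ^ (2 * δ / M) :=
      Real.rpow_le_rpow_of_exponent_le (by norm_num) h2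
    have h4 : t ≤ (2:ℝ) ^ t := by
      have h5 : Real.exp (t * Real.log 2) = (2:ℝ) ^ t := by
        rw [Real.rpow_def_of_pos (by norm_num)]; congr 1; ring
      have h6 : t * (1 / 2) ≤ t * Real.log 2 := by
        have := Real.log_two_gt_d9
        apply mul_le_mul_of_nonneg_left _ ht0.le; linarith
      have h7 : (1 + t / 4) ≤ Real.exp (t / 4) := by
        have := Real.add_one_le_exp (t / 4); linarith
      have h8 : Real.exp (t / 4) * Real.exp (t / 4) = Real.exp (t * (1 / 2)) := by
        rw [← Real.exp_add]; congr 1; ring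
      have h9 : (1 + t / 4) * (1 + t / 4) ≤ Real.exp (t * (1 / 2)) := by
        rw [← h8]; apply mul_le_mul h7 h7 (by positivity) (by positivity)
      have h10 : t ≤ (1 + t / 4) * (1 + t / 4) := by nlinarith [sq_nonneg (t / 4 - 1)]
      rw [← h5]
      exact le_trans h10 (le_trans h9 (Real.exp_le_exp.2 h6))
    have h11 : (2:ℝ) ^ (26 : ℕ) ≤ (2:ℝ) ^ t := by
      rw [← Real.rpow_natCast]
      apply Real.rpow_le_rpow_of_exponent_le (by norm_num)
      norm_num; linarith
    have h12 : (2 * t * 2 ^ t) * (2 ^ 25 * t ^ 4) ≤ (2:ℝ) ^ (7 * t) := by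
      have h13 : (2:ℝ) ^ (7 * t) = ((2:ℝ) ^ t) ^ 7 := by
        rw [← Real.rpow_natCast ((2:ℝ) ^ t) 7, ← Real.rpow_mul (by norm_num)]
        congr 1; push_cast; ring
      rw [h13]
      have h14 : t ^ 5 ≤ ((2:ℝ) ^ t) ^ 5 := pow_le_pow_left₀ ht0.le h4 5
      calc (2 * t * 2 ^ t) * (2 ^ 25 * t ^ 4) = (2:ℝ) ^ (26:ℕ) * 2 ^ t * t ^ 5 := by ring
        _ ≤ 2 ^ t * 2 ^ t * ((2:ℝ) ^ t) ^ 5 := by gcongr
        _ = ((2:ℝ) ^ t) ^ 7 := by ring
    have h15 : (2:ℝ) ^ (7 * t) < (2:ℝ) ^ (8 * t) := by
      apply Real.rpow_lt_rpow_of_exponent_lt (by norm_num); linarith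
    linarith
  obtain ⟨ι, hι⟩ := exists_loads F High δ hM0' (fun v hv => (Finset.mem_filter.1 hv).2) hsmall
  -- the order of A
  have hn : ∃ y0 : Fin n, True := by
    obtain ⟨b, _⟩ := Finset.card_pos.1 (show 0 < B.card by exact_mod_cast hBpos)
    exact ⟨b, trivial⟩
  obtain ⟨y0, _⟩ := hn
  obtain ⟨y, hy1, hy2, hy3, hy4⟩ := exists_enum y0 A (fun v => (B.filter (fun b => G.Adj v b)).card)
  set μ0 : Fin n → Fin M → ℝ := fun b _ => if b ∈ B then 1 else 0 with hμ0
  have hμn : ∀ b i, 0 ≤ μ0 b i := by
    intro b i; rw [hμ0]; simp only; split_ifs <;> norm_num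
  obtain ⟨c, hc⟩ := exists_good G s hs0 μ0 hμn y A.card High w0 z q hq0 hpq hq1 hq
  -- the colouring
  let col : Fin N → Fin N → Bool := fun u v =>
    if u ∉ High ∧ v ∈ High then c v (ι u) else if v ∉ High ∧ u ∈ High then c u (ι v) else true
  have hcolsymm : ∀ u v, col u v = col v u := by
    intro u v
    simp only [col]
    by_cases h1 : u ∈ High <;> by_cases h2 : v ∈ High <;> simp [h1, h2]
  let R : SimpleGraph (Fin N) :=
    { Adj := fun u v => F.Adj u v ∧ col u v = true
      symm := ⟨by
        rintro u v ⟨h1, h2⟩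
        exact ⟨h1.symm, by rw [hcolsymm]; exact h2⟩⟩
      loopless := ⟨fun u h => F.loopless.irrefl u h.1⟩ }
  have hRF : R ≤ F := fun u v h => h.1
  have hmain : ∀ (flip : Bool) (φ : Fin n → Fin N), Function.Injective φ →
      (∀ u v, G.Adj u v → F.Adj (φ u) (φ v)) →
      (∀ u v, G.Adj u v → col (φ u) (φ v) = !flip) → False := by
    intro flip φ hφ hφF hφc
    have hAH : ∀ v ∈ A, φ v ∈ High := by
      intro v hv
      rw [hHigh, Finset.mem_filter]
      refine ⟨Finset.mem_univ _, le_trans (hA v hv) ?_⟩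
      exact_mod_cast degree_le_of_copy G F φ hφ hφF v
    have hdet := main_det G F s hs0 hM0' A B φ hφ hφF High ι hι
      (fun w i => xor flip (c w i)) ?_ hAH μ0 rfl y hy1 hy2 hy3 hy4 z hz0' ?_
      (2 ^ 26 * t ^ 4) (by positivity) hBA
    · rw [← hedef, ← hmdef] at hdet
      have g1 : (B.card : ℝ) * M / (2 ^ 26 * t ^ 4) ≤ B.card / 2 := by
        rw [div_le_iff₀ (by positivity)]
        have : (B.card : ℝ) * M ≤ B.card * (2 ^ 25 * t ^ 4) := by gcongr
        calc (B.card : ℝ) * M ≤ B.card * (2 ^ 25 * t ^ 4) := this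
          _ = B.card / 2 * (2 ^ 26 * t ^ 4) := by ring
      have g2 : 2 * e / z ≤ B.card / 8 := by
        rw [div_le_iff₀ hz0]
        calc 2 * e ≤ 2 * (16 * t * B.card) := by linarith
          _ = B.card / 8 * (256 * t) := by ring
          _ ≤ B.card / 8 * z := by gcongr
      have g3 : 8 * s * m / M ≤ B.card / 8 := by
        rw [div_le_iff₀ hM0]
        calc 8 * s * m ≤ 8 * s * (t * (16 * t * B.card)) := by
              apply mul_le_mul_of_nonneg_left _ (by positivity)
              refine le_trans hFm ?_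
              exact mul_le_mul_of_nonneg_left hB ht0.le
          _ = B.card / 8 * (1024 * s * t ^ 2) := by ring
          _ ≤ B.card / 8 * M := by gcongr
      linarith
    · intro yy b hadj hb hyH
      have h1 := hφc b yy hadj.symm
      have h2 : col (φ b) (φ yy) = c (φ yy) (ι (φ b)) := by
        simp only [col]
        rw [if_pos ⟨hb, hyH⟩]
      rw [h2] at h1
      rw [h1]
      cases flip <;> rfl
    · intro k hk
      exact hc flip k hk (fun j => φ (y j)) (fun j hj => hAH _ (hy1 j (by omega)))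
        (fun i hi j hj hij => hy2 i (by omega) j (by omega) (hφ hij))
  rcases hR R hRF with h | h
  · obtain ⟨g⟩ := h
    apply hmain false g g.injective
    · intro u v huv
      exact (g.toHom.map_adj huv).1
    · intro u v huv
      exact (g.toHom.map_adj huv).2
  · obtain ⟨g⟩ := h
    have hg : ∀ u v, G.Adj u v → F.Adj (g u) (g v) ∧ ¬ R.Adj (g u) (g v) := by
      intro u v huv
      have := g.toHom.map_adj huv
      rw [SimpleGraph.sdiff_adj] at this
      exact this
    apply hmain true g g.injective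
    · intro u v huv
      exact (hg u v huv).1
    · intro u v huv
      have h1 := hg u v huv
      by_contra h2
      apply h1.2
      refine ⟨h1.1, ?_⟩
      cases hcc : col (g u) (g v)
      · exact absurd hcc h2
      · rfl


open SpanningTree in
theorem sizeRamsey_mono {n k : ℕ} (G : SimpleGraph (Fin n)) (G' : SimpleGraph (Fin k))
    (h : G'.IsContained G) :
    SimpleGraph.sizeRamsey G' G' ≤ SimpleGraph.sizeRamsey G G := by
  obtain ⟨M, F, hFm, hR⟩ := Nat.sInf_mem (exists_host G)
  have hsr : SimpleGraph.sizeRamsey G G = F.edgeSet.ncard := by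
    rw [hFm]; rfl
  rw [hsr]
  apply Nat.sInf_le
  refine ⟨M, F, rfl, ?_⟩
  intro R hRF
  rcases hR R hRF with h1 | h1
  · exact Or.inl (h.trans h1)
  · exact Or.inr (h.trans h1)

noncomputable def eqv {n : ℕ} (S : Set (Fin n)) : Fin (Nat.card S) ≃ S :=
  (Finite.equivFin S).symm

/-- the subgraph induced by `S`, with vertex set relabelled -/
noncomputable def sub {n : ℕ} (G : SimpleGraph (Fin n)) (S : Set (Fin n)) :
    SimpleGraph (Fin (Nat.card S)) := (G.induce S).comap (eqv S)

theorem sub_adj {n : ℕ} (G : SimpleGraph (Fin n)) (S : Set (Fin n)) (i j : Fin (Nat.card S)) :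
    (sub G S).Adj i j ↔ G.Adj (eqv S i).1 (eqv S j).1 := Iff.rfl

theorem sub_contained {n : ℕ} (G : SimpleGraph (Fin n)) (S : Set (Fin n)) :
    (sub G S).IsContained G :=
  ⟨⟨⟨fun v => (eqv S v).1, fun {_ _} h => h⟩, by
    intro a b h
    exact (eqv S).injective (Subtype.ext h)⟩⟩

noncomputable def subIso {n : ℕ} (G : SimpleGraph (Fin n)) (S : Set (Fin n)) :
    sub G S ≃g G.induce S := SimpleGraph.Iso.comap (eqv S) (G.induce S)

theorem sub_edges {n : ℕ} (G : SimpleGraph (Fin n)) (S : Set (Fin n)) :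
    (sub G S).edgeSet.ncard = (G.induce S).edgeSet.ncard := by
  rw [← Nat.card_coe_set_eq, ← Nat.card_coe_set_eq]
  exact Nat.card_congr (subIso G S).mapEdgeSet

theorem sub_comps {n : ℕ} (G : SimpleGraph (Fin n)) (S : Set (Fin n)) :
    Nat.card (sub G S).ConnectedComponent = Nat.card (G.induce S).ConnectedComponent :=
  Nat.card_congr (subIso G S).connectedComponentEquiv

theorem sub_degree {n : ℕ} (G : SimpleGraph (Fin n)) (S : Set (Fin n))
    (v : Fin (Nat.card S)) :
    ((sub G S).neighborSet v).ncard ≤ (G.neighborSet (eqv S v).1).ncard := by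
  apply Set.ncard_le_ncard_of_injOn (fun u => (eqv S u).1)
  · intro u hu
    exact hu
  · intro a _ b _ h
    exact (eqv S).injective (Subtype.ext h)

open Classical in
noncomputable def PP {n : ℕ} (G : SimpleGraph (Fin n)) (S T : Set (Fin n)) : ℕ :=
  (univ.filter (fun p : Fin n × Fin n => p.1 ∈ S ∧ p.2 ∈ T ∧ G.Adj p.1 p.2)).card

open Classical in
theorem pairs_card {k : ℕ} (G : SimpleGraph (Fin k)) :
    (univ.filter (fun p : Fin k × Fin k => G.Adj p.1 p.2)).card = 2 * G.edgeSet.ncard := by
  have hGe : G.edgeSet.ncard = G.edgeFinset.card := by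
    rw [← SimpleGraph.coe_edgeFinset, Set.ncard_coe_finset]
  rw [hGe, ← SimpleGraph.sum_degrees_eq_twice_card_edges, Finset.card_filter,
    Fintype.sum_prod_type]
  apply Finset.sum_congr rfl
  intro v _
  rw [← SimpleGraph.card_neighborFinset_eq_degree, ← Finset.card_filter]
  congr 1
  ext u; simp

open Classical in
theorem PP_le {n : ℕ} (G : SimpleGraph (Fin n)) (S : Set (Fin n)) :
    PP G S S ≤ 2 * (G.induce S).edgeSet.ncard := by
  rw [← sub_edges, ← pairs_card]
  unfold PP
  refine le_trans (Finset.card_le_card ?_) (Finset.card_image_le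
    (s := univ.filter (fun p : Fin (Nat.card S) × Fin (Nat.card S) => (sub G S).Adj p.1 p.2))
    (f := fun p => ((eqv S p.1).1, (eqv S p.2).1)))
  intro p hp
  simp only [Finset.mem_filter, Finset.mem_univ, true_and] at hp
  rw [Finset.mem_image]
  refine ⟨((eqv S).symm ⟨p.1, hp.1⟩, (eqv S).symm ⟨p.2, hp.2.1⟩), ?_, ?_⟩
  · simp only [Finset.mem_filter, Finset.mem_univ, true_and, sub_adj, Equiv.apply_symm_apply]
    exact hp.2.2
  · show ((eqv S ((eqv S).symm ⟨p.1, hp.1⟩)).1, (eqv S ((eqv S).symm ⟨p.2, hp.2.1⟩)).1) = p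
    rw [Equiv.apply_symm_apply, Equiv.apply_symm_apply]

open Classical in
theorem edges_split {n : ℕ} (G : SimpleGraph (Fin n)) (L H V1 V3 : Set (Fin n))
    (h : ∀ v, v ∈ V1 ∨ (v ∈ L ∧ v ∈ H) ∨ v ∈ V3) (h1 : ∀ v ∈ V1, v ∈ L) (h3 : ∀ v ∈ V3, v ∈ H) :
    G.edgeSet.ncard ≤ (G.induce L).edgeSet.ncard + (G.induce H).edgeSet.ncard + PP G V3 V1 := by
  have h4 : 2 * G.edgeSet.ncard ≤ PP G L L + PP G H H + PP G V3 V1 + PP G V1 V3 := by
    rw [← pairs_card]
    unfold PP
    have hsub : univ.filter (fun p : Fin n × Fin n => G.Adj p.1 p.2) ⊆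
        ((univ.filter (fun p : Fin n × Fin n => p.1 ∈ L ∧ p.2 ∈ L ∧ G.Adj p.1 p.2) ∪
        univ.filter (fun p : Fin n × Fin n => p.1 ∈ H ∧ p.2 ∈ H ∧ G.Adj p.1 p.2)) ∪
        univ.filter (fun p : Fin n × Fin n => p.1 ∈ V3 ∧ p.2 ∈ V1 ∧ G.Adj p.1 p.2)) ∪
        univ.filter (fun p : Fin n × Fin n => p.1 ∈ V1 ∧ p.2 ∈ V3 ∧ G.Adj p.1 p.2) := by
      intro p hp
      simp only [Finset.mem_filter, Finset.mem_univ, true_and, Finset.mem_union] at hp ⊢
      have a1 := h p.1
      have a2 := h p.2
      have b1 := h1 p.1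
      have b2 := h1 p.2
      have c1 := h3 p.1
      have c2 := h3 p.2
      tauto
    refine le_trans (Finset.card_le_card hsub) ?_
    refine le_trans (Finset.card_union_le _ _) (Nat.add_le_add_right ?_ _)
    refine le_trans (Finset.card_union_le _ _) (Nat.add_le_add_right ?_ _)
    exact Finset.card_union_le _ _
  have h5 : PP G V1 V3 ≤ PP G V3 V1 := by
    unfold PP
    apply Finset.card_le_card_of_injOn (fun p => (p.2, p.1))
    · intro p hp
      simp only [Finset.coe_filter, Finset.mem_univ, true_and, Set.mem_ofPred_eq] at hp ⊢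
      exact ⟨hp.2.1, hp.1, hp.2.2.symm⟩
    · intro p _ q _ hpq
      simp only [Prod.mk.injEq] at hpq
      exact Prod.ext hpq.2 hpq.1
  have h6 := PP_le G L
  have h7 := PP_le G H
  omega

theorem comps_le {n : ℕ} (T : SimpleGraph (Fin n)) : Nat.card T.ConnectedComponent ≤ n := by
  classical
  rw [Nat.card_eq_fintype_card]
  have := Fintype.card_le_of_surjective T.connectedComponentMk
    (fun c => Quot.exists_rep c)
  simpa using this


theorem self_le_two_rpow (x : ℝ) (hx : 0 ≤ x) : x ≤ (2:ℝ) ^ x := by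
  have h5 : Real.exp (x * Real.log 2) = (2:ℝ) ^ x := by
    rw [Real.rpow_def_of_pos (by norm_num)]; congr 1; ring
  have h6 : x * (1 / 2) ≤ x * Real.log 2 := by
    have := Real.log_two_gt_d9
    apply mul_le_mul_of_nonneg_left _ hx; linarith
  have h7 : (1 + x / 4) ≤ Real.exp (x / 4) := by
    have := Real.add_one_le_exp (x / 4); linarith
  have h8 : Real.exp (x / 4) * Real.exp (x / 4) = Real.exp (x * (1 / 2)) := by
    rw [← Real.exp_add]; congr 1; ring
  have h9 : (1 + x / 4) * (1 + x / 4) ≤ Real.exp (x * (1 / 2)) := by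
    rw [← h8]; apply mul_le_mul h7 h7 (by positivity) (by positivity)
  have h10 : x ≤ (1 + x / 4) * (1 + x / 4) := by nlinarith [sq_nonneg (x / 4 - 1)]
  rw [← h5]
  exact le_trans h10 (le_trans h9 (Real.exp_le_exp.2 h6))

/-- case of many edges between vertices of degree at least `t` -/
theorem dense_case (t : ℝ) (ht : 2 ^ 16 ≤ t) {n : ℕ} (G : SimpleGraph (Fin n))
    (hn : (n : ℝ) ≤ 2 ^ (t / 256)) (H : Set (Fin n))
    (hH : ∀ v ∈ H, t ≤ ((G.neighborSet v).ncard : ℝ))
    (he : 0 < G.edgeSet.ncard)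
    (hHe : (G.edgeSet.ncard : ℝ) ≤ 16 * (G.induce H).edgeSet.ncard) :
    t * G.edgeSet.ncard < (SimpleGraph.sizeRamsey G G : ℝ) := by
  classical
  have ht' : (65536:ℝ) ≤ t := by norm_num at ht; exact ht
  set e : ℝ := (G.edgeSet.ncard : ℝ) with hedef
  have he' : 0 < e := by rw [hedef]; exact_mod_cast he
  set eH : ℝ := ((G.induce H).edgeSet.ncard : ℝ) with heH
  have heHpos : 0 < eH := by linarith
  -- size of H
  have hdeg : ∀ v, (G.neighborSet v).ncard = G.degree v := by
    intro v
    simp [Set.ncard_eq_toFinset_card', SimpleGraph.degree, SimpleGraph.neighborFinset]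
  have hGe : G.edgeSet.ncard = G.edgeFinset.card := by
    rw [← SimpleGraph.coe_edgeFinset, Set.ncard_coe_finset]
  have hcardH : (Nat.card H : ℝ) * t ≤ 2 * e := by
    have h1 := high_card G t
    have h2 : (Nat.card H : ℝ) ≤ ((univ.filter (fun v => t ≤ (G.degree v : ℝ))).card : ℝ) := by
      have : Nat.card H ≤ (univ.filter (fun v => t ≤ (G.degree v : ℝ))).card := by
        rw [Nat.card_coe_set_eq, ← Set.ncard_coe_finset]
        apply Set.ncard_le_ncard
        · intro v hv
          simp only [Finset.coe_filter, Finset.mem_univ, true_and, Set.mem_ofPred_eq]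
          rw [← hdeg]; exact hH v hv
        · exact Set.toFinite _
      exact_mod_cast this
    rw [hedef, hGe]
    calc (Nat.card H : ℝ) * t ≤ _ := by
          apply mul_le_mul_of_nonneg_right h2; linarith
      _ ≤ _ := by convert h1 using 3
  have hk : 0 < Nat.card H := by
    rw [Nat.pos_iff_ne_zero]
    intro h0
    have h1 : (sub G H).edgeSet.ncard = 0 := by
      rw [Set.ncard_eq_zero (Set.toFinite _)]
      apply Set.eq_empty_iff_forall_notMem.2
      intro x hx
      induction x with
      | _ a b => exact absurd a.2 (by omega)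
    rw [sub_edges] at h1
    rw [heH, h1] at heHpos
    simp at heHpos
  have hkn : (Nat.card H : ℝ) ≤ n := by
    have : Nat.card H ≤ n := by
      rw [Nat.card_coe_set_eq]
      calc H.ncard ≤ (Set.univ : Set (Fin n)).ncard :=
            Set.ncard_le_ncard (Set.subset_univ _) (Set.toFinite _)
        _ = n := by rw [Set.ncard_univ]; simp
    exact_mod_cast this
  have hres := SpanningTree.result (t / 32) (by linarith) (Nat.card H) hk (sub G H) ?_ ⊥ bot_le
    ?_ ?_
  · rw [sub_edges] at hres
    have hmono : ((SimpleGraph.sizeRamsey (sub G H) (sub G H) : ℕ) : ℝ) ≤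
        (SimpleGraph.sizeRamsey G G : ℝ) := by
      exact_mod_cast sizeRamsey_mono G (sub G H) (sub_contained G H)
    have h1 : 16 * t ≤ (2:ℝ) ^ (t / 32 / 8) := by
      have h2 : t / 32 / 8 = t / 512 + t / 512 := by ring
      rw [h2, Real.rpow_add (by norm_num)]
      have h3 := self_le_two_rpow (t / 512) (by positivity)
      have h4 : (2:ℝ) ^ (13:ℝ) ≤ (2:ℝ) ^ (t / 512) := by
        apply Real.rpow_le_rpow_of_exponent_le (by norm_num); linarith
      have h5 : (2:ℝ) ^ (13:ℝ) = 8192 := by
        rw [show (13:ℝ) = ((13:ℕ):ℝ) by norm_num, Real.rpow_natCast]; norm_num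
      rw [h5] at h4
      calc 16 * t = (t / 512) * 8192 := by ring
        _ ≤ 2 ^ (t / 512) * 2 ^ (t / 512) := by
            apply mul_le_mul h3 h4 (by norm_num) (by positivity)
    calc t * e ≤ t * (16 * eH) := by gcongr
      _ = 16 * t * eH := by ring
      _ ≤ (2:ℝ) ^ (t / 32 / 8) * eH := by gcongr
      _ < _ := hres
      _ ≤ _ := hmono
  · rw [sub_edges, ← heH]
    nlinarith
  · intro v
    have h0 : ((⊥ : SimpleGraph (Fin (Nat.card H))).neighborSet v) = ∅ := by
      apply Set.eq_empty_iff_forall_notMem.2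
      intro u hu
      rw [SimpleGraph.mem_neighborSet] at hu
      exact hu
    rw [h0, Set.ncard_empty, Nat.cast_zero]
    positivity
  · have h1 := comps_le (⊥ : SimpleGraph (Fin (Nat.card H)))
    have hk1 : (1:ℝ) ≤ (Nat.card H : ℝ) := by exact_mod_cast hk
    calc (Nat.card H : ℝ) ^ Nat.card (⊥ : SimpleGraph (Fin (Nat.card H))).ConnectedComponent
        ≤ (Nat.card H : ℝ) ^ (Nat.card H) := pow_le_pow_right₀ hk1 h1
      _ ≤ ((2:ℝ) ^ (t / 32 / 8)) ^ (Nat.card H) := by
          apply pow_le_pow_left₀ (by positivity)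
          refine le_trans hkn (le_trans hn (le_of_eq ?_))
          congr 1; ring


open Classical in
/-- case of many edges between very high and low degree vertices -/
theorem cross_case (C t δ : ℝ) (hC : 8192 ≤ C) (ht : t = 2 ^ (C / 128)) (hδ : δ = 2 ^ (C / 12))
    {n : ℕ} (G : SimpleGraph (Fin n)) (hG : C * n ≤ (G.edgeSet.ncard : ℝ))
    (hn : (n : ℝ) ≤ 2 ^ (t / 256)) (V1 V3 : Set (Fin n))
    (hV1 : ∀ v ∈ V1, ((G.neighborSet v).ncard : ℝ) ≤ t)
    (hV3 : ∀ v ∈ V3, δ ≤ ((G.neighborSet v).ncard : ℝ))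
    (he : 0 < G.edgeSet.ncard)
    (hX : (G.edgeSet.ncard : ℝ) ≤ 8 * PP G V3 V1) :
    t * G.edgeSet.ncard < (SimpleGraph.sizeRamsey G G : ℝ) := by
  have ht64 : (2:ℝ) ^ (64:ℕ) ≤ t := by
    rw [ht, ← Real.rpow_natCast]
    apply Real.rpow_le_rpow_of_exponent_le (by norm_num)
    push_cast; linarith
  have ht0 : (64:ℝ) ≤ t := le_trans (by norm_num) ht64
  have htpos : 0 < t := by linarith
  have hdeg : ∀ v, (G.neighborSet v).ncard = G.degree v := by
    intro v
    simp [Set.ncard_eq_toFinset_card', SimpleGraph.degree, SimpleGraph.neighborFinset]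
  have hGe : G.edgeSet.ncard = G.edgeFinset.card := by
    rw [← SimpleGraph.coe_edgeFinset, Set.ncard_coe_finset]
  by_contra hcon
  rw [not_lt] at hcon
  obtain ⟨N, F, hFm, hR⟩ := Nat.sInf_mem (SpanningTree.exists_host G)
  have hsr : SimpleGraph.sizeRamsey G G = F.edgeSet.ncard := by
    rw [hFm]; rfl
  have hFe : F.edgeSet.ncard = F.edgeFinset.card := by
    rw [← SimpleGraph.coe_edgeFinset, Set.ncard_coe_finset]
  rw [hsr, hFe, hGe] at hcon
  rw [hGe] at hG hX he
  -- a vertex of the host
  have hw0 : ∃ w : Fin N, True := by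
    obtain ⟨x, hx⟩ := Finset.card_pos.1 he
    induction x with
    | _ i j =>
      rcases hR F le_rfl with h | h
      · obtain ⟨g⟩ := h; exact ⟨g i, trivial⟩
      · obtain ⟨g⟩ := h; exact ⟨g i, trivial⟩
  obtain ⟨w0, _⟩ := hw0
  set e : ℝ := (G.edgeFinset.card : ℝ) with hedef
  have he' : 0 < e := by rw [hedef]; exact_mod_cast he
  set A : Finset (Fin n) := univ.filter (fun v => v ∈ V3) with hA
  set B : Finset (Fin n) := univ.filter (fun b => b ∈ V1 ∧
    C / 16 ≤ ((A.filter (fun v => G.Adj v b)).card : ℝ)) with hB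
  -- count pairs
  have hPP : PP G V3 V1 = ∑ b ∈ univ.filter (fun b => b ∈ V1), (A.filter (fun v => G.Adj v b)).card := by
    unfold PP
    rw [Finset.card_filter, Fintype.sum_prod_type_right, Finset.sum_filter]
    apply Finset.sum_congr rfl
    intro b _
    by_cases hb : b ∈ V1
    · rw [if_pos hb, ← Finset.card_filter]
      congr 1
      ext v
      simp [hA, hb]
    · rw [if_neg hb]
      apply Finset.sum_eq_zero
      intro v _
      rw [if_neg]
      intro h; exact hb h.2.1
  have hcount : (PP G V3 V1 : ℝ) ≤ t * B.card + C / 16 * n := by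
    rw [hPP]
    push_cast
    rw [← Finset.sum_filter_add_sum_filter_not (univ.filter (fun b => b ∈ V1))
      (fun b => C / 16 ≤ ((A.filter (fun v => G.Adj v b)).card : ℝ))]
    apply add_le_add
    · have h1 : (univ.filter (fun b => b ∈ V1)).filter
          (fun b => C / 16 ≤ ((A.filter (fun v => G.Adj v b)).card : ℝ)) = B := by
        rw [hB, Finset.filter_filter]
      rw [h1]
      calc ∑ b ∈ B, ((A.filter (fun v => G.Adj v b)).card : ℝ) ≤ ∑ b ∈ B, t := by
            apply Finset.sum_le_sum
            intro b hb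
            rw [hB, Finset.mem_filter] at hb
            refine le_trans ?_ (hV1 b hb.2.1)
            rw [hdeg, ← SimpleGraph.card_neighborFinset_eq_degree]
            have : (A.filter (fun v => G.Adj v b)).card ≤ (G.neighborFinset b).card := by
              apply Finset.card_le_card
              intro v hv
              rw [Finset.mem_filter] at hv
              simpa using hv.2.symm
            exact_mod_cast this
        _ = t * B.card := by rw [Finset.sum_const, nsmul_eq_mul]; ring
    · calc ∑ b ∈ (univ.filter (fun b => b ∈ V1)).filter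
            (fun b => ¬ C / 16 ≤ ((A.filter (fun v => G.Adj v b)).card : ℝ)),
            ((A.filter (fun v => G.Adj v b)).card : ℝ)
          ≤ ∑ b ∈ (univ.filter (fun b => b ∈ V1)).filter
            (fun b => ¬ C / 16 ≤ ((A.filter (fun v => G.Adj v b)).card : ℝ)), C / 16 := by
            apply Finset.sum_le_sum
            intro b hb
            rw [Finset.mem_filter, not_le] at hb
            exact hb.2.le
        _ ≤ ∑ b : Fin n, C / 16 := by
            apply Finset.sum_le_sum_of_subset_of_nonneg (Finset.subset_univ _)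
            intro _ _ _; positivity
        _ = C / 16 * n := by rw [Finset.sum_const, nsmul_eq_mul]; simp; ring
  have hBe : e ≤ 16 * t * B.card := by nlinarith
  have hen : e ≤ (n : ℝ) * n := by
    have h1 : ∑ v, G.degree v = 2 * G.edgeFinset.card :=
      SimpleGraph.sum_degrees_eq_twice_card_edges G
    have h2 : ∑ v : Fin n, G.degree v ≤ n * n := by
      calc ∑ v : Fin n, G.degree v ≤ ∑ v : Fin n, n := by
            apply Finset.sum_le_sum
            intro v _
            have := (G.degree_lt_card_verts v).le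
            simpa using this
        _ = n * n := by simp
    have h3 : G.edgeFinset.card ≤ n * n := by omega
    rw [hedef]; exact_mod_cast h3
  have hδ1 : 1 ≤ δ := by rw [hδ]; exact Real.one_le_rpow (by norm_num) (by positivity)
  refine core t δ ht0 G A B he ?_ ?_ ?_ hBe ?_ F w0 hcon hR
  · rw [hδ, ht]
    have h1 : (2:ℝ) ^ (27:ℕ) = (2:ℝ) ^ (27:ℝ) := by
      rw [← Real.rpow_natCast]; norm_num
    have h2 : ((2:ℝ) ^ (C / 128)) ^ (5:ℕ) = (2:ℝ) ^ (5 * C / 128) := by
      rw [← Real.rpow_natCast, ← Real.rpow_mul (by norm_num)]; congr 1; push_cast; ring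
    rw [h1, h2, ← Real.rpow_add (by norm_num)]
    apply Real.rpow_le_rpow_of_exponent_le (by norm_num)
    linarith
  · have h1 : (n : ℝ) * n ≤ 2 ^ (t / 256) * 2 ^ (t / 256) := by gcongr
    rw [← Real.rpow_add (by norm_num)] at h1
    have h2 : (2:ℝ) ^ (t / 256 + t / 256) ≤ 2 ^ t := by
      apply Real.rpow_le_rpow_of_exponent_le (by norm_num); linarith
    have h3 : (0:ℝ) < 2 ^ t := by positivity
    calc e ≤ (n : ℝ) * n := hen
      _ ≤ 2 ^ t * 1 := by linarith
      _ ≤ 2 ^ t * δ := by gcongr
  · intro v hv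
    rw [hA, Finset.mem_filter] at hv
    rw [← hdeg]; exact hV3 v hv.2
  · intro b hb
    rw [hB, Finset.mem_filter] at hb
    have hb2 := hb.2.2
    set k := (A.filter (fun v => G.Adj v b)).card with hk
    have h1 : (2:ℝ) ^ (4 / 7 : ℝ) ≤ 3 / 2 := by
      have h2 : ((2:ℝ) ^ (4 / 7 : ℝ)) ^ (7:ℕ) ≤ (3 / 2) ^ (7:ℕ) := by
        rw [← Real.rpow_natCast, ← Real.rpow_mul (by norm_num)]
        norm_num
      exact le_of_pow_le_pow_left₀ (by norm_num) (by norm_num) h2
    have h3 : (2:ℝ) ^ (C / 28) ≤ (3 / 2 : ℝ) ^ k := by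
      calc (2:ℝ) ^ (C / 28) ≤ (2:ℝ) ^ ((4 / 7 : ℝ) * k) := by
            apply Real.rpow_le_rpow_of_exponent_le (by norm_num); linarith
        _ = ((2:ℝ) ^ (4 / 7 : ℝ)) ^ k := by
            rw [Real.rpow_mul (by norm_num), Real.rpow_natCast]
        _ ≤ (3 / 2) ^ k := pow_le_pow_left₀ (by positivity) h1 k
    refine le_trans ?_ h3
    rw [ht]
    have h4 : (2:ℝ) ^ (26:ℕ) = (2:ℝ) ^ (26:ℝ) := by
      rw [← Real.rpow_natCast]; norm_num
    have h5 : ((2:ℝ) ^ (C / 128)) ^ (4:ℕ) = (2:ℝ) ^ (4 * C / 128) := by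
      rw [← Real.rpow_natCast, ← Real.rpow_mul (by norm_num)]; congr 1; push_cast; ring
    rw [h4, h5, ← Real.rpow_add (by norm_num)]
    apply Real.rpow_le_rpow_of_exponent_le (by norm_num)
    linarith

/-- Let `C ≥ 8192` and let `G` be a graph on `n` vertices, `1 ≤ n ≤ 2 ^ (2 ^ (C / 256))`, with at
least `C n` edges.  Let `L` be the set of vertices of degree less than `2 ^ (C / 12)`.  If at least
a quarter of the edges of `G` are not spanned by `L`, or if the graph spanned by `L` has `k`
components with `|L| ^ k ≤ 2 ^ (C |L| / 16)`, then the size Ramsey number of `G` is larger than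
`2 ^ (C / 128)` times the number of edges of `G`. -/
theorem result (C : ℝ) (hC : 8192 ≤ C) (n : ℕ) (hn : 0 < n) (G : SimpleGraph (Fin n))
    (hG : C * n ≤ (G.edgeSet.ncard : ℝ)) (hn2 : (n : ℝ) ≤ (2:ℝ) ^ ((2:ℝ) ^ (C / 256)))
    (L : Set (Fin n)) (hL : ∀ v, v ∈ L ↔ ((G.neighborSet v).ncard : ℝ) < (2:ℝ) ^ (C / 12))
    (h : 4 * ((G.induce L).edgeSet.ncard : ℝ) ≤ 3 * G.edgeSet.ncard ∨
      (L.ncard : ℝ) ^ Nat.card (G.induce L).ConnectedComponent ≤
        ((2:ℝ) ^ (C / 16)) ^ L.ncard) :
    (2:ℝ) ^ (C / 128) * G.edgeSet.ncard < (SimpleGraph.sizeRamsey G G : ℝ) := by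
  classical
  set t : ℝ := (2:ℝ) ^ (C / 128) with ht
  set δ : ℝ := (2:ℝ) ^ (C / 12) with hδ
  have ht64 : (2:ℝ) ^ (64:ℕ) ≤ t := by
    rw [ht, ← Real.rpow_natCast]
    apply Real.rpow_le_rpow_of_exponent_le (by norm_num)
    push_cast; linarith
  have htδ : t ≤ δ := by
    rw [ht, hδ]
    apply Real.rpow_le_rpow_of_exponent_le (by norm_num); linarith
  have htpos : 0 < t := lt_of_lt_of_le (by positivity) ht64
  have hn1 : (1:ℝ) ≤ n := by exact_mod_cast hn
  have heR : (0:ℝ) < (G.edgeSet.ncard : ℝ) := by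
    have : 0 < C * n := by positivity
    linarith
  have he : 0 < G.edgeSet.ncard := by exact_mod_cast heR
  have hnt : (n : ℝ) ≤ 2 ^ (t / 256) := by
    refine le_trans hn2 ?_
    apply Real.rpow_le_rpow_of_exponent_le (by norm_num)
    rw [le_div_iff₀ (by norm_num)]
    have h1 : (256:ℝ) ≤ (2:ℝ) ^ (C / 256) := by
      have h2 : (256:ℝ) = (2:ℝ) ^ (8:ℝ) := by
        rw [show (8:ℝ) = ((8:ℕ):ℝ) by norm_num, Real.rpow_natCast]; norm_num
      rw [h2]
      apply Real.rpow_le_rpow_of_exponent_le (by norm_num); linarith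
    have h3 : t = (2:ℝ) ^ (C / 256) * (2:ℝ) ^ (C / 256) := by
      rw [ht, ← Real.rpow_add (by norm_num)]; congr 1; ring
    rw [h3]
    gcongr
  set H : Set (Fin n) := {v | t ≤ ((G.neighborSet v).ncard : ℝ)} with hH
  set V1 : Set (Fin n) := {v | ((G.neighborSet v).ncard : ℝ) < t} with hV1
  set V3 : Set (Fin n) := {v | δ ≤ ((G.neighborSet v).ncard : ℝ)} with hV3
  have hsplit := edges_split G L H V1 V3 ?_ ?_ ?_
  · have hsplit' : (G.edgeSet.ncard : ℝ) ≤ (G.induce L).edgeSet.ncard +
        (G.induce H).edgeSet.ncard + PP G V3 V1 := by exact_mod_cast hsplit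
    by_cases h1 : (G.edgeSet.ncard : ℝ) ≤ 16 * (G.induce H).edgeSet.ncard
    · refine dense_case t (le_trans (by norm_num) ht64) G hnt H ?_ he h1
      intro v hv
      rw [hH, Set.mem_ofPred_eq] at hv
      exact hv
    by_cases h2 : (G.edgeSet.ncard : ℝ) ≤ 8 * PP G V3 V1
    · refine cross_case C t δ hC ht hδ G hG hnt V1 V3 ?_ ?_ he h2
      · intro v hv
        rw [hV1, Set.mem_ofPred_eq] at hv
        exact hv.le
      · intro v hv
        rw [hV3, Set.mem_ofPred_eq] at hv
        exact hv
    rw [not_le] at h1 h2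
    rcases h with h | h
    · linarith
    have hLe : 3 / 4 * (G.edgeSet.ncard : ℝ) ≤ (G.induce L).edgeSet.ncard := by linarith
    have hkn : (Nat.card L : ℝ) ≤ n := by
      have : Nat.card L ≤ n := by
        rw [Nat.card_coe_set_eq]
        calc L.ncard ≤ (Set.univ : Set (Fin n)).ncard :=
              Set.ncard_le_ncard (Set.subset_univ _) (Set.toFinite _)
          _ = n := by rw [Set.ncard_univ]; simp
      exact_mod_cast this
    have hk : 0 < Nat.card L := by
      rw [Nat.pos_iff_ne_zero]
      intro h0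
      have h1 : (sub G L).edgeSet.ncard = 0 := by
        rw [Set.ncard_eq_zero (Set.toFinite _)]
        apply Set.eq_empty_iff_forall_notMem.2
        intro x hx
        induction x with
        | _ a b => exact absurd a.2 (by omega)
      rw [sub_edges] at h1
      rw [h1] at hLe
      simp at hLe
      linarith
    have hres := SpanningTree.result (3 * C / 4) (by linarith) (Nat.card L) hk (sub G L) ?_
      (sub G L) le_rfl ?_ ?_
    · rw [sub_edges] at hres
      have hmono : ((SimpleGraph.sizeRamsey (sub G L) (sub G L) : ℕ) : ℝ) ≤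
          (SimpleGraph.sizeRamsey G G : ℝ) := by
        exact_mod_cast sizeRamsey_mono G (sub G L) (sub_contained G L)
      have h3 : t * (4 / 3) ≤ (2:ℝ) ^ (3 * C / 4 / 8) := by
        have h4 : (2:ℝ) ^ (3 * C / 4 / 8) = t * (2:ℝ) ^ (11 * C / 128) := by
          rw [ht, ← Real.rpow_add (by norm_num)]; congr 1; ring
        rw [h4]
        apply mul_le_mul_of_nonneg_left _ htpos.le
        have h5 : (2:ℝ) ^ (1:ℝ) ≤ (2:ℝ) ^ (11 * C / 128) := by
          apply Real.rpow_le_rpow_of_exponent_le (by norm_num); linarith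
        rw [Real.rpow_one] at h5
        linarith
      calc t * (G.edgeSet.ncard : ℝ) = (t * (4 / 3)) * (3 / 4 * (G.edgeSet.ncard : ℝ)) := by ring
        _ ≤ (2:ℝ) ^ (3 * C / 4 / 8) * (G.induce L).edgeSet.ncard := by gcongr
        _ < _ := hres
        _ ≤ _ := hmono
    · rw [sub_edges]
      nlinarith
    · intro v
      have h3 : (((sub G L).neighborSet v).ncard : ℝ) ≤
          ((G.neighborSet (eqv L v).1).ncard : ℝ) := by exact_mod_cast sub_degree G L v
      refine le_trans h3 (le_trans ((hL _).1 (eqv L v).2).le ?_)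
      rw [hδ]
      apply Real.rpow_le_rpow_of_exponent_le (by norm_num); linarith
    · rw [sub_comps, Nat.card_coe_set_eq]
      refine le_trans h ?_
      apply pow_le_pow_left₀ (by positivity)
      apply Real.rpow_le_rpow_of_exponent_le (by norm_num); linarith
  · intro v
    by_cases h1 : ((G.neighborSet v).ncard : ℝ) < t
    · left; rw [hV1, Set.mem_ofPred_eq]; exact h1
    · by_cases h2 : ((G.neighborSet v).ncard : ℝ) < δ
      · right; left
        exact ⟨(hL v).2 h2, by rw [hH, Set.mem_ofPred_eq]; exact not_lt.1 h1⟩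
      · right; right
        rw [hV3, Set.mem_ofPred_eq]; exact not_lt.1 h2
  · intro v hv
    rw [hV1, Set.mem_ofPred_eq] at hv
    exact (hL v).2 (lt_of_lt_of_le hv htδ)
  · intro v hv
    rw [hV3, Set.mem_ofPred_eq] at hv
    rw [hH, Set.mem_ofPred_eq]
    exact le_trans htδ hv

end Pool.Agent.SizeRamsey683.HighLow
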